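import Mathlib

/-!
# Automorphisms of the complex numbers act transitively on the embeddings of a number field
-/

set_option linter.unusedSectionVars false

namespace Pool.Agent.Y4

open Module Cardinal

/-- Algebraically closed fields of the same uncountable cardinality are isomorphic over every
countable subfield. -/
theorem exists_equiv {F : Type*} {A A' : Type} [Field F] [Countable F] [Field A] [Field A']
    [Algebra F A] [Algebra F A'] [IsAlgClosed A] [IsAlgClosed A'] (hA : ℵ₀ < #A)
    (hAA : #A = #A') : ∃ σ : A ≃+* A', ∀ x, σ (algebraMap F A x) = algebraMap F A' x := by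
  obtain ⟨s, hs⟩ := exists_isTranscendenceBasis F A
  obtain ⟨t, ht⟩ := exists_isTranscendenceBasis F A'
  have h1 : #A = #s := by
    have h := IsAlgClosed.cardinal_eq_cardinal_transcendence_basis_of_aleph0_lt _ hs
      (Cardinal.mk_le_aleph0) hA
    rwa [lift_id, lift_id] at h
  have h2 : #A' = #t := by
    have h := IsAlgClosed.cardinal_eq_cardinal_transcendence_basis_of_aleph0_lt _ ht
      (Cardinal.mk_le_aleph0) (by rw [← hAA]; exact hA)
    rwa [lift_id, lift_id] at h
  obtain ⟨e⟩ : Nonempty (s ≃ t) := Cardinal.eq.1 (by rw [← h1, ← h2, hAA])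
  have _ : IsAlgClosure (Algebra.adjoin F (Set.range (Subtype.val : s → A))) A :=
    IsAlgClosed.isAlgClosure_of_transcendence_basis _ hs
  have _ : IsAlgClosure (Algebra.adjoin F (Set.range (Subtype.val : t → A'))) A' :=
    IsAlgClosed.isAlgClosure_of_transcendence_basis _ ht
  let P := hs.1.aevalEquiv
  let Q := ht.1.aevalEquiv
  let f : Algebra.adjoin F (Set.range (Subtype.val : s → A)) ≃ₐ[F]
      Algebra.adjoin F (Set.range (Subtype.val : t → A')) :=
    P.symm.trans ((MvPolynomial.renameEquiv F e).trans Q)
  refine ⟨IsAlgClosure.equivOfEquiv A A' f.toRingEquiv, fun x => ?_⟩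
  have h3 : algebraMap F A x = algebraMap (Algebra.adjoin F (Set.range (Subtype.val : s → A))) A
      (algebraMap F _ x) := rfl
  have h4 : algebraMap F A' x =
      algebraMap (Algebra.adjoin F (Set.range (Subtype.val : t → A'))) A'
      (algebraMap F _ x) := rfl
  rw [h3, IsAlgClosure.equivOfEquiv_algebraMap, h4]
  congr 1
  exact f.commutes x

variable {E : Type*} [Field E] [NumberField E]

theorem countable_of_numberField : Countable E :=
  (finBasis ℚ E).equivFun.toEquiv.injective.countable

/-- The automorphisms of the complex numbers act transitively on the embeddings. -/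
theorem exists_aut_emb (φ ψ : E →+* ℂ) : ∃ σ : ℂ ≃+* ℂ, (σ : ℂ →+* ℂ).comp φ = ψ := by
  have _ : Countable E := countable_of_numberField
  obtain ⟨σ, hσ⟩ := @exists_equiv E ℂ ℂ _ _ _ _ φ.toAlgebra ψ.toAlgebra _ _
    (by rw [Cardinal.mk_complex]; exact aleph0_lt_continuum) rfl
  exact ⟨σ, RingHom.ext hσ⟩

end Pool.Agent.Y4
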