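import Mathlib

/-!
# The eigenspaces of a number field acting on a rational vector space

For a ring homomorphism from a number field to the rational matrices there are idempotent complex
matrices which project to the eigenspaces belonging to the complex embeddings.
-/

set_option linter.unusedSectionVars false

namespace Pool.Agent.Y4

open Matrix Polynomial Module

variable {B : Type*} [Fintype B] [DecidableEq B] {E : Type*} [Field E] [NumberField E]

/-- Equality of embeddings is decided classically. -/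
noncomputable instance decEmb : DecidableEq (E →+* ℂ) := Classical.decEq _

/-- The action on the complexification. -/
noncomputable def iC (ι : E →+* Matrix B B ℚ) : E →+* Matrix B B ℂ :=
  (Rat.castHom ℂ).mapMatrix.comp ι

theorem iC_apply (ι : E →+* Matrix B B ℚ) (e : E) :
    iC ι e = (ι e).map (fun x : ℚ => (x : ℂ)) := rfl

theorem iC_map (ι : E →+* Matrix B B ℚ) (e : E) (σ : ℂ →+* ℂ) : (iC ι e).map σ = iC ι e := by
  ext i j
  simp [iC_apply]

theorem iC_aeval (ι : E →+* Matrix B B ℚ) (θ : E) (p : ℚ[X]) :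
    iC ι (aeval θ p) = aeval (iC ι θ) (p.map (algebraMap ℚ ℂ)) := by
  induction p using Polynomial.induction_on' with
  | add p q hp hq => rw [map_add, map_add, hp, hq, Polynomial.map_add, map_add]
  | monomial n a =>
    rw [aeval_monomial, map_mul, map_pow, Polynomial.map_monomial, aeval_monomial]
    congr 1
    have h1 : iC ι (algebraMap ℚ E a) = algebraMap ℚ (Matrix B B ℂ) a := by
      have h2 : (iC ι).comp (algebraMap ℚ E) = algebraMap ℚ (Matrix B B ℂ) :=
        RingHom.ext_rat _ _
      rw [← h2]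
      rfl
    rw [h1]
    have h3 : algebraMap ℚ (Matrix B B ℂ) =
        (algebraMap ℂ (Matrix B B ℂ)).comp (algebraMap ℚ ℂ) := RingHom.ext_rat _ _
    rw [h3]
    rfl

/-- The primitive element. -/
noncomputable def prim (E : Type*) [Field E] [NumberField E] : E :=
  (Field.powerBasisOfFiniteOfSeparable ℚ E).gen

theorem exists_poly (e : E) : ∃ p : ℚ[X], e = aeval (prim E) p := by
  obtain ⟨p, _, hp⟩ := (Field.powerBasisOfFiniteOfSeparable ℚ E).exists_eq_aeval e
  exact ⟨p, hp⟩

theorem emb_aeval (φ : E →+* ℂ) (p : ℚ[X]) (θ : E) :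
    φ (aeval θ p) = (p.map (algebraMap ℚ ℂ)).eval (φ θ) := by
  rw [eval_map_algebraMap]
  have h := Polynomial.aeval_algHom_apply (φ.toRatAlgHom) θ p
  exact h.symm

theorem prim_inj : Function.Injective fun φ : E →+* ℂ => φ (prim E) := by
  intro φ ψ h
  ext e
  obtain ⟨p, hp⟩ := exists_poly e
  rw [hp, emb_aeval, emb_aeval]
  change φ (prim E) = ψ (prim E) at h
  rw [h]

theorem nodal_eq_minpoly :
    Lagrange.nodal Finset.univ (fun φ : E →+* ℂ => φ (prim E)) =
      (minpoly ℚ (prim E)).map (algebraMap ℚ ℂ) := by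
  have hint : IsIntegral ℚ (prim E) := Algebra.IsIntegral.isIntegral _
  have h1 : Lagrange.nodal Finset.univ (fun φ : E →+* ℂ => φ (prim E)) ∣
      (minpoly ℚ (prim E)).map (algebraMap ℚ ℂ) := by
    rw [Lagrange.nodal_eq]
    refine Finset.prod_dvd_of_coprime ?_ ?_
    · intro φ _ ψ _ hne
      exact Polynomial.isCoprime_X_sub_C_of_isUnit_sub
        (sub_ne_zero.2 fun h => hne (prim_inj h)).isUnit
    · intro φ _
      rw [dvd_iff_isRoot, IsRoot.def, ← emb_aeval, minpoly.aeval, map_zero]
  have h2 : ((minpoly ℚ (prim E)).map (algebraMap ℚ ℂ)).natDegree ≤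
      (Lagrange.nodal Finset.univ (fun φ : E →+* ℂ => φ (prim E))).natDegree := by
    rw [Lagrange.natDegree_nodal, Finset.card_univ, NumberField.Embeddings.card,
      natDegree_map]
    have h3 := (Field.powerBasisOfFiniteOfSeparable ℚ E).natDegree_minpoly
    have h4 := (Field.powerBasisOfFiniteOfSeparable ℚ E).finrank
    unfold prim
    rw [h3, h4]
  exact (Polynomial.eq_of_monic_of_dvd_of_natDegree_le Lagrange.nodal_monic
    ((minpoly.monic hint).map _) h1 h2).symm

/-- The idempotents. -/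
noncomputable def ide (ι : E →+* Matrix B B ℚ) (φ : E →+* ℂ) : Matrix B B ℂ :=
  aeval (iC ι (prim E)) (Lagrange.basis Finset.univ (fun ψ : E →+* ℂ => ψ (prim E)) φ)

variable (ι : E →+* Matrix B B ℚ)

theorem prim_mul_ide (φ : E →+* ℂ) :
    iC ι (prim E) * ide ι φ = φ (prim E) • ide ι φ := by
  classical
  have h1 : (X - C (φ (prim E))) *
      Lagrange.basis Finset.univ (fun ψ : E →+* ℂ => ψ (prim E)) φ =
      C (Lagrange.nodalWeight Finset.univ (fun ψ : E →+* ℂ => ψ (prim E)) φ) *
        Lagrange.nodal Finset.univ (fun ψ : E →+* ℂ => ψ (prim E)) := by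
    rw [Lagrange.basis_eq_prod_sub_inv_mul_nodal_div (Finset.mem_univ φ),
      ← Lagrange.nodal_erase_eq_nodal_div (Finset.mem_univ φ),
      Lagrange.nodal_eq_mul_nodal_erase (Finset.mem_univ φ)]
    ring
  have h2 : aeval (iC ι (prim E))
      (Lagrange.nodal Finset.univ (fun ψ : E →+* ℂ => ψ (prim E))) = 0 := by
    rw [nodal_eq_minpoly, ← iC_aeval, minpoly.aeval, map_zero]
  have h3 := congrArg (aeval (iC ι (prim E))) h1
  rw [map_mul, map_mul, h2, mul_zero, map_sub, aeval_X, aeval_C, sub_mul] at h3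
  have h4 := sub_eq_zero.1 h3
  unfold ide
  rw [h4, Algebra.smul_def]

theorem poly_mul_ide (φ : E →+* ℂ) (p : ℂ[X]) :
    aeval (iC ι (prim E)) p * ide ι φ = p.eval (φ (prim E)) • ide ι φ := by
  induction p using Polynomial.induction_on' with
  | add p q hp hq => rw [map_add, add_mul, hp, hq, eval_add, add_smul]
  | monomial n a =>
    rw [aeval_monomial, eval_monomial, mul_assoc]
    have h1 : iC ι (prim E) ^ n * ide ι φ = (φ (prim E)) ^ n • ide ι φ := by
      induction n with
      | zero => simp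
      | succ n ih =>
        rw [pow_succ, mul_assoc, prim_mul_ide, mul_smul_comm, ih, smul_smul, pow_succ]
        congr 1
        ring
    rw [h1, mul_smul, ← Algebra.smul_def]

/-- The idempotents project to the eigenspaces. -/
theorem iC_mul_ide (e : E) (φ : E →+* ℂ) : iC ι e * ide ι φ = φ e • ide ι φ := by
  obtain ⟨p, hp⟩ := exists_poly e
  rw [hp, iC_aeval, poly_mul_ide, emb_aeval]

theorem sum_ide [Nonempty (E →+* ℂ)] : ∑ φ, ide ι φ = 1 := by
  unfold ide
  rw [← map_sum, Lagrange.sum_basis prim_inj.injOn Finset.univ_nonempty, map_one]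

/-- A matrix which commutes with the action commutes with the idempotents. -/
theorem comm_ide {A : Matrix B B ℂ} (h : ∀ e, A * iC ι e = iC ι e * A) (φ : E →+* ℂ) :
    A * ide ι φ = ide ι φ * A := by
  unfold ide
  generalize Lagrange.basis Finset.univ (fun ψ : E →+* ℂ => ψ (prim E)) φ = p
  induction p using Polynomial.induction_on' with
  | add p q hp hq => rw [map_add, mul_add, add_mul, hp, hq]
  | monomial n a =>
    rw [aeval_monomial, ← map_pow, ← Algebra.smul_def, mul_smul_comm, smul_mul_assoc, h]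

theorem iC_comm (e e' : E) : iC ι e * iC ι e' = iC ι e' * iC ι e := by
  rw [← map_mul, mul_comm, map_mul]

theorem ide_mul_iC (e : E) (φ : E →+* ℂ) : ide ι φ * iC ι e = φ e • ide ι φ := by
  rw [← comm_ide ι (fun e' => iC_comm ι e e') φ, iC_mul_ide]

/-- The idempotents recognize eigenspaces. -/
theorem ide_mul_of_eig {n : Type*} {x : Matrix B n ℂ} {ψ : E →+* ℂ}
    (h : ∀ e, iC ι e * x = ψ e • x) (φ : E →+* ℂ) :
    ide ι φ * x = if φ = ψ then x else 0 := by
  classical
  have h0 : ∀ φ, φ ≠ ψ → ide ι φ * x = 0 := by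
    intro φ hne
    obtain ⟨e, he⟩ : ∃ e, φ e ≠ ψ e := by
      by_contra hcon
      push Not at hcon
      exact hne (RingHom.ext hcon)
    have h1 : ide ι φ * (iC ι e * x) = φ e • (ide ι φ * x) := by
      rw [← Matrix.mul_assoc, ide_mul_iC, Matrix.smul_mul]
    rw [h e, Matrix.mul_smul] at h1
    have h2 : (ψ e - φ e) • (ide ι φ * x) = 0 := by rw [sub_smul, h1, sub_self]
    exact (smul_eq_zero.1 h2).resolve_left (sub_ne_zero.2 (Ne.symm he))
  split_ifs with hφ
  · subst hφ
    have h1 : (∑ ψ', ide ι ψ') * x = x := by rw [sum_ide, Matrix.one_mul]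
    rw [Matrix.sum_mul] at h1
    rw [Finset.sum_eq_single φ] at h1
    · exact h1
    · intro ψ' _ hne
      exact h0 ψ' hne
    · intro h2
      exact absurd (Finset.mem_univ _) h2
  · exact h0 φ hφ

theorem ide_mul_ide (φ ψ : E →+* ℂ) :
    ide ι φ * ide ι ψ = if φ = ψ then ide ι ψ else 0 := by
  rw [ide_mul_of_eig ι (fun e => iC_mul_ide ι e ψ)]

theorem ide_idem (φ : E →+* ℂ) : ide ι φ * ide ι φ = ide ι φ := by
  rw [ide_mul_ide, if_pos rfl]

theorem ide_mul_ne {φ ψ : E →+* ℂ} (h : φ ≠ ψ) : ide ι φ * ide ι ψ = 0 := by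
  rw [ide_mul_ide, if_neg h]

/-- Conjugation of the idempotents. -/
theorem ide_map (φ : E →+* ℂ) (σ : ℂ →+* ℂ) : (ide ι φ).map σ = ide ι (σ.comp φ) := by
  classical
  have h1 : ∀ φ, ∀ e, iC ι e * (ide ι φ).map σ = (σ.comp φ) e • (ide ι φ).map σ := by
    intro φ e
    have h2 := congrArg (fun M : Matrix B B ℂ => M.map σ) (iC_mul_ide ι e φ)
    simp only [Matrix.map_mul, iC_map] at h2
    rw [h2]
    ext i j
    simp
  have h3 : ∑ φ, (ide ι φ).map σ = 1 := by
    have h4 := congrArg (fun M : Matrix B B ℂ => M.map σ) (sum_ide ι)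
    have h5 : (∑ φ, ide ι φ).map σ = ∑ φ, (ide ι φ).map σ := by
      ext i j
      rw [Matrix.map_apply, Matrix.sum_apply, Matrix.sum_apply, map_sum]
      rfl
    have h6 : (1 : Matrix B B ℂ).map σ = 1 := Matrix.map_one _ (map_zero σ) (map_one σ)
    rw [← h5, ← h6]
    exact h4
  have h7 : ide ι (σ.comp φ) * ∑ ψ, (ide ι ψ).map σ = ide ι (σ.comp φ) := by
    rw [h3, mul_one]
  rw [Finset.mul_sum, Finset.sum_eq_single φ] at h7
  · rw [ide_mul_of_eig ι (h1 φ), if_pos rfl] at h7
    exact h7
  · intro ψ _ hne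
    rw [ide_mul_of_eig ι (h1 ψ), if_neg]
    intro h8
    apply hne
    ext e
    have h9 := RingHom.congr_fun h8 e
    exact (σ.injective h9).symm
  · intro h8
    exact absurd (Finset.mem_univ _) h8

end Pool.Agent.Y4
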