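import Mathlib
import Pool.Agent.Y4.Idem
import Pool.Agent.Y4.Aut
import Pool.Agent.TH125.Mono

/-!
# Number fields acting on abelian varieties, stable under the Rosati involution
-/

set_option linter.unusedSectionVars false

namespace Pool.Agent.Y4

open Matrix Module Pool.Agent.H204R3.CM Pool.Agent.H194R3.CM Pool.Agent.W437.HC
  Pool.Agent.W437.HD Pool.Agent.W437.HQ Pool.Agent.W548.Odd Pool.Agent.TH125

/-- The trace of an idempotent matrix. -/
theorem trace_idem {B : Type*} [Fintype B] [DecidableEq B] {P : Matrix B B ℂ} (h : P * P = P) :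
    trace P = (finrank ℂ (LinearMap.range (mulVecLin P)) : ℂ) := by
  have h1 : IsIdempotentElem (mulVecLin P) := by
    change (mulVecLin P) ∘ₗ (mulVecLin P) = mulVecLin P
    rw [← mulVecLin_mul, h]
  have h2 := (LinearMap.IsIdempotentElem.isProj_range _ h1).trace
  rw [← h2, ← Matrix.toLin'_apply', Matrix.trace_toLin'_eq]

/-- An embedding composed with complex conjugation. -/
noncomputable def bar {E : Type*} [Field E] (φ : E →+* ℂ) : E →+* ℂ := (starRingEnd ℂ).comp φ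

theorem bar_bar {E : Type*} [Field E] (φ : E →+* ℂ) : bar (bar φ) = φ := by
  ext e
  simp [bar]

theorem bar_apply {E : Type*} [Field E] (φ : E →+* ℂ) (e : E) : bar φ e = starRingEnd ℂ (φ e) :=
  rfl

variable {g : ℕ} {Z : Matrix (Fin g) (Fin g) ℂ} {E : Type*} [Field E] [NumberField E]
  {ι : E →+* Matrix (Fin g ⊕ Fin g) (Fin g ⊕ Fin g) ℚ}

/-- A number field acts on the abelian variety by endomorphisms and the image is stable under the
Rosati involution. -/
structure Act (Z : Matrix (Fin g) (Fin g) ℂ)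
    (ι : E →+* Matrix (Fin g ⊕ Fin g) (Fin g ⊕ Fin g) ℚ) : Prop where
  symm : Zᵀ = Z
  pos : (imM Z).PosDef
  comm : ∀ e, iC ι e * DZ Z = DZ Z * iC ι e
  ros : ∀ e, ∃ e', (ι e)ᵀ * Om g ℚ = Om g ℚ * ι e'

theorem iC_eq_qm (e : E) : iC ι e = qm (ι e) := rfl

theorem ros_C {e e' : E} (h : (ι e)ᵀ * Om g ℚ = Om g ℚ * ι e') :
    (iC ι e)ᵀ * Om g ℂ = Om g ℂ * iC ι e' := by
  have h1 := congrArg qm h
  rw [qm_mul, qm_mul, ← Om_qm] at h1
  exact h1

/-- The eigenspaces are not zero. -/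
theorem ide_ne_zero [Nonempty (Fin g)] (φ : E →+* ℂ) : ide ι φ ≠ 0 := by
  intro h
  have h1 : ∀ ψ, ide ι ψ = 0 := by
    intro ψ
    obtain ⟨σ, rfl⟩ := exists_aut_emb φ ψ
    rw [← ide_map, h]
    exact Matrix.map_zero _ (map_zero _)
  have h2 := sum_ide ι
  simp only [h1, Finset.sum_const_zero] at h2
  have h3 := congrFun (congrFun h2 (Sum.inl (Classical.arbitrary (Fin g))))
    (Sum.inl (Classical.arbitrary (Fin g)))
  rw [one_apply_eq] at h3
  exact zero_ne_one h3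

/-- The dimension of the eigenspaces. -/
theorem trace_ide (φ ψ : E →+* ℂ) : trace (ide ι φ) = trace (ide ι ψ) := by
  obtain ⟨σ, rfl⟩ := exists_aut_emb φ ψ
  rw [← ide_map]
  have h1 : trace ((ide ι φ).map (σ : ℂ →+* ℂ)) = σ (trace (ide ι φ)) :=
    (AddMonoidHom.map_trace (σ : ℂ →+* ℂ).toAddMonoidHom _).symm
  rw [h1, trace_idem (ide_idem ι φ), map_natCast]

namespace Act

variable (A : Act Z ι)
include A

theorem isUnit : IsUnit (imM Z).det := A.pos.isUnit.map Matrix.detMonoidHom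

/-- The positivity of the Riemann form. -/
theorem pos_vec {x : Fin g ⊕ Fin g → ℂ} (hx : x ≠ 0) :
    x ⬝ᵥ (Om g ℂ *ᵥ (cm (JR Z) *ᵥ fun i => starRingEnd ℂ (x i))) ≠ 0 := by
  set H := Om g ℝ * JR Z with hH
  have hHpos := OmJ_posDef A.symm A.pos
  set vb : Fin g ⊕ Fin g → ℂ := fun i => starRingEnd ℂ (x i) with hvb
  have h7 : x ⬝ᵥ (Om g ℂ *ᵥ (cm (JR Z) *ᵥ vb)) = x ⬝ᵥ (cm H *ᵥ vb) := by
    rw [hH, cm_mul, cm_Om, mulVec_mulVec]
  rw [h7]
  set a : Fin g ⊕ Fin g → ℝ := fun i => (x i).re with ha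
  set b : Fin g ⊕ Fin g → ℝ := fun i => (x i).im with hb
  have h8 : (x ⬝ᵥ (cm H *ᵥ vb)).re = a ⬝ᵥ (H *ᵥ a) + b ⬝ᵥ (H *ᵥ b) := by
    simp only [dotProduct, mulVec, Complex.re_sum, Complex.mul_re, Complex.im_sum, Complex.mul_im,
      cm, Matrix.map_apply, Complex.ofReal_re, Complex.ofReal_im, zero_mul, sub_zero, add_zero,
      hvb, Complex.conj_re, Complex.conj_im, ha, hb]
    rw [← Finset.sum_add_distrib]
    refine Finset.sum_congr rfl fun i _ => ?_
    have e1 : ∑ k, H i k * -(x k).im = -∑ k, H i k * (x k).im := by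
      rw [← Finset.sum_neg_distrib]
      exact Finset.sum_congr rfl fun k _ => by ring
    rw [e1]
    ring
  intro h9
  rw [h9, Complex.zero_re] at h8
  have hnn : ∀ z : Fin g ⊕ Fin g → ℝ, 0 ≤ z ⬝ᵥ (H *ᵥ z) := by
    intro z
    by_cases hz : z = 0
    · rw [hz]
      simp
    · have := hHpos.dotProduct_mulVec_pos hz
      rw [star_trivial] at this
      exact this.le
  apply hx
  have hx0 : a = 0 := by
    by_contra hne
    have := hHpos.dotProduct_mulVec_pos hne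
    rw [star_trivial] at this
    have h7 := hnn b
    linarith
  have hy0 : b = 0 := by
    by_contra hne
    have := hHpos.dotProduct_mulVec_pos hne
    rw [star_trivial] at this
    have h7 := hnn a
    linarith
  funext i
  apply Complex.ext
  · exact congrFun hx0 i
  · exact congrFun hy0 i

theorem comm_J (e : E) : iC ι e * cm (JR Z) = cm (JR Z) * iC ι e := by
  have h1 : cm (JR Z) = Complex.I • DZ Z := by
    change _ = Complex.I • ((-Complex.I) • cm (JR Z))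
    rw [smul_smul, show Complex.I * -Complex.I = 1 by simp, one_smul]
  rw [h1, Matrix.mul_smul, Matrix.smul_mul, A.comm]

/-- The Rosati involution is complex conjugation. -/
theorem ros_emb [Nonempty (Fin g)] {e e' : E} (h : (ι e)ᵀ * Om g ℚ = Om g ℚ * ι e')
    (φ : E →+* ℂ) : φ e = starRingEnd ℂ (φ e') := by
  obtain ⟨x, hx, hx0⟩ : ∃ x, (∀ e, iC ι e *ᵥ x = φ e • x) ∧ x ≠ 0 := by
    have h1 := ide_ne_zero (ι := ι) φ
    obtain ⟨j, hj⟩ : ∃ j, ide ι φ *ᵥ Pi.single j 1 ≠ 0 := by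
      by_contra hcon
      push Not at hcon
      apply h1
      ext i j
      have := congrFun (hcon j) i
      rwa [mulVec_single_one] at this
    refine ⟨_, fun e => ?_, hj⟩
    rw [mulVec_mulVec, iC_mul_ide, smul_mulVec]
  have h1 := A.pos_vec hx0
  have h2 : (iC ι e *ᵥ x) ⬝ᵥ (Om g ℂ *ᵥ (cm (JR Z) *ᵥ fun i => starRingEnd ℂ (x i))) =
      x ⬝ᵥ (Om g ℂ *ᵥ (cm (JR Z) *ᵥ fun i => starRingEnd ℂ ((iC ι e' *ᵥ x) i))) := by
    have h3 : (fun i => starRingEnd ℂ ((iC ι e' *ᵥ x) i)) =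
        iC ι e' *ᵥ fun i => starRingEnd ℂ (x i) := by
      funext i
      simp [mulVec, dotProduct, iC_apply]
    rw [h3, mulVec_mulVec _ (cm (JR Z)) (iC ι e'), ← A.comm_J, ← mulVec_mulVec,
      mulVec_mulVec _ (Om g ℂ) (iC ι e'), ← ros_C h, ← mulVec_mulVec,
      dotProduct_mulVec x, vecMul_transpose]
  have h3 : (fun i => starRingEnd ℂ ((φ e' • x) i)) =
      starRingEnd ℂ (φ e') • fun i => starRingEnd ℂ (x i) := by
    funext i
    simp
  rw [hx, hx, h3, mulVec_smul, mulVec_smul, dotProduct_smul, smul_dotProduct] at h2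
  have h4 := sub_eq_zero.2 h2
  rw [← sub_smul] at h4
  exact sub_eq_zero.1 ((smul_eq_zero.1 h4).resolve_right h1)

/-- The adjoint of an idempotent. -/
theorem ide_Om [Nonempty (Fin g)] (φ : E →+* ℂ) :
    (ide ι φ)ᵀ * Om g ℂ = Om g ℂ * ide ι (bar φ) := by
  -- the matrix `-(Om eᵀ Om)` is in the right eigenspace
  have h1 : ∀ φ, ∀ e, iC ι e * -(Om g ℂ * (ide ι φ)ᵀ * Om g ℂ) =
      (bar φ) e • -(Om g ℂ * (ide ι φ)ᵀ * Om g ℂ) := by
    intro φ e
    obtain ⟨e', he⟩ := A.ros e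
    have h2 := ros_C he
    have h3 : φ e' = (bar φ) e := by
      rw [bar_apply, A.ros_emb he φ, starRingEnd_self_apply]
    have h4 : iC ι e * Om g ℂ = Om g ℂ * (iC ι e')ᵀ := by
      have h5 := congrArg transpose h2
      rw [transpose_mul, transpose_mul, transpose_transpose, Om_transpose, Matrix.neg_mul,
        Matrix.mul_neg] at h5
      have h7 : Om g ℂ * (Om g ℂ * iC ι e) * Om g ℂ = Om g ℂ * ((iC ι e')ᵀ * Om g ℂ) * Om g ℂ := by
        rw [neg_injective h5]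
      rw [← mul_assoc, Om_sq, neg_one_mul, mul_assoc (Om g ℂ), mul_assoc _ (Om g ℂ) (Om g ℂ),
        Om_sq, mul_neg_one, mul_neg, neg_mul] at h7
      exact neg_injective h7
    have h6 : (iC ι e')ᵀ * (ide ι φ)ᵀ = φ e' • (ide ι φ)ᵀ := by
      rw [← transpose_mul, ide_mul_iC, transpose_smul]
    rw [mul_neg, ← mul_assoc, ← mul_assoc, h4, mul_assoc (Om g ℂ), h6, Matrix.mul_smul,
      Matrix.smul_mul, h3, smul_neg]
  have h2 : ∑ φ, -(Om g ℂ * (ide ι φ)ᵀ * Om g ℂ) = 1 := by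
    rw [Finset.sum_neg_distrib, ← Finset.sum_mul, ← Finset.mul_sum, ← transpose_sum, sum_ide,
      transpose_one, mul_one, Om_sq, neg_neg]
  have h3 : ide ι (bar φ) * ∑ φ, -(Om g ℂ * (ide ι φ)ᵀ * Om g ℂ) = ide ι (bar φ) := by
    rw [h2, mul_one]
  rw [Finset.mul_sum, Finset.sum_eq_single φ] at h3
  · rw [ide_mul_of_eig ι (h1 φ), if_pos rfl] at h3
    rw [← h3, mul_neg, ← mul_assoc, ← mul_assoc, Om_sq, neg_one_mul, neg_mul, neg_neg]
  · intro ψ _ hne
    rw [ide_mul_of_eig ι (h1 ψ), if_neg]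
    intro h8
    apply hne
    rw [← bar_bar ψ, ← h8, bar_bar]
  · intro h8
    exact absurd (Finset.mem_univ _) h8

/-- Complex conjugation commutes with automorphisms on the embeddings. -/
theorem bar_comp [Nonempty (Fin g)] (σ : ℂ →+* ℂ) (φ : E →+* ℂ) :
    σ.comp (bar φ) = bar (σ.comp φ) := by
  ext e
  obtain ⟨e', he⟩ := A.ros e
  have h1 := A.ros_emb he φ
  have h2 := A.ros_emb he (σ.comp φ)
  have h3 : bar φ e = φ e' := by rw [bar_apply, h1, starRingEnd_self_apply]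
  change σ (bar φ e) = starRingEnd ℂ (σ.comp φ e)
  rw [h3, h2, starRingEnd_self_apply]
  rfl

theorem comm_D_ide (φ : E →+* ℂ) : DZ Z * ide ι φ = ide ι φ * DZ Z :=
  comm_ide ι (fun e => (A.comm e).symm) φ

/-- The Lie algebra commutes with the idempotents. -/
theorem comm_L_iC {X : Matrix (Fin g ⊕ Fin g) (Fin g ⊕ Fin g) ℂ}
    (hX : X ∈ lieM (DZ Z) ℂ) (e : E) : X * iC ι e = iC ι e * X :=
  (comm_lie A.symm (A.comm e) hX).symm

theorem comm_L_ide {X : Matrix (Fin g ⊕ Fin g) (Fin g ⊕ Fin g) ℂ}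
    (hX : X ∈ lieM (DZ Z) ℂ) (φ : E →+* ℂ) : X * ide ι φ = ide ι φ * X :=
  comm_ide ι (fun e => A.comm_L_iC hX e) φ

end Act

end Pool.Agent.Y4
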