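import Mathlib
import Pool.Agent.Y4.Ros

/-!
# The multiplicities of the action on the tangent space
-/

set_option linter.unusedSectionVars false

namespace Pool.Agent.Y4

open Matrix Module Pool.Agent.H204R3.CM Pool.Agent.H194R3.CM Pool.Agent.W437.HC
  Pool.Agent.W437.HD Pool.Agent.W437.HQ Pool.Agent.W548.Odd Pool.Agent.TH125

variable {g : ℕ} {Z : Matrix (Fin g) (Fin g) ℂ} {E : Type*} [Field E] [NumberField E]
  {ι : E →+* Matrix (Fin g ⊕ Fin g) (Fin g ⊕ Fin g) ℚ}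

/-- The eigenspaces on the tangent space. -/
def eig (Z : Matrix (Fin g) (Fin g) ℂ) (ι : E →+* Matrix (Fin g ⊕ Fin g) (Fin g ⊕ Fin g) ℚ)
    (φ : E →+* ℂ) : Submodule ℂ (Fin g → ℂ) where
  carrier := {t | ∀ (e : E) (M : Matrix (Fin g) (Fin g) ℂ), IsEndo Z (ι e) M →
    M.mulVec t = φ e • t}
  zero_mem' := fun e M _ => by rw [mulVec_zero, smul_zero]
  add_mem' := fun {a b} ha hb e M h => by rw [mulVec_add, ha e M h, hb e M h, smul_add]
  smul_mem' := fun c a ha e M h => by rw [mulVec_smul, ha e M h, smul_comm]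

/-- The multiplicity. -/
noncomputable def mult (Z : Matrix (Fin g) (Fin g) ℂ)
    (ι : E →+* Matrix (Fin g ⊕ Fin g) (Fin g ⊕ Fin g) ℚ) (φ : E →+* ℂ) : ℕ :=
  finrank ℂ (eig Z ι φ)

/-- The projector to the eigenspace. -/
noncomputable def pr (Z : Matrix (Fin g) (Fin g) ℂ)
    (ι : E →+* Matrix (Fin g ⊕ Fin g) (Fin g ⊕ Fin g) ℚ) (φ : E →+* ℂ) :
    Matrix (Fin g ⊕ Fin g) (Fin g ⊕ Fin g) ℂ := (2 : ℂ)⁻¹ • ((1 + DZ Z) * ide ι φ)

theorem ide_mulVec_of_eig {x : Fin g ⊕ Fin g → ℂ} {φ : E →+* ℂ}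
    (h : ∀ e, iC ι e *ᵥ x = φ e • x) : ide ι φ *ᵥ x = x := by
  have h1 := ide_mul_of_eig ι (x := Matrix.of fun i (_ : Unit) => x i) (ψ := φ) (fun e => by
    ext i j
    exact congrFun (h e) i) φ
  rw [if_pos rfl] at h1
  funext i
  exact congrFun (congrFun h1 i) ()

/-- The period matrix is injective on the fixed vectors of `DZ`. -/
theorem eq_zero_of_PZ (hY : IsUnit (imM Z).det) {x : Fin g ⊕ Fin g → ℂ} (h1 : DZ Z *ᵥ x = x)
    (h2 : PZ Z *ᵥ x = 0) : x = 0 := by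
  have h3 : x = LM Z *ᵥ (KK g *ᵥ x) := by
    have h4 : (1 : Matrix (Fin g ⊕ Fin g) (Fin g ⊕ Fin g) ℂ) *ᵥ x =
        (r10 g * PZ Z + LM Z * KK g) *ᵥ x := by rw [← one_eq]
    rw [one_mulVec, add_mulVec, ← mulVec_mulVec, h2, mulVec_zero, zero_add, ← mulVec_mulVec] at h4
    exact h4
  have h4 : DZ Z *ᵥ x = -x := by
    nth_rewrite 1 [h3]
    rw [mulVec_mulVec, DZ_LM hY, neg_mulVec, ← h3]
  rw [h1] at h4
  have h5 : (2 : ℂ) • x = 0 := by
    rw [two_smul]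
    nth_rewrite 1 [h4]
    rw [neg_add_cancel]
  exact (smul_eq_zero.1 h5).resolve_left two_ne_zero

namespace Act

variable (A : Act Z ι)
include A

theorem D_pr (φ : E →+* ℂ) : DZ Z * pr Z ι φ = pr Z ι φ := by
  unfold pr
  rw [Matrix.mul_smul, ← mul_assoc, mul_add, mul_one, DZ_sq A.isUnit, add_comm (DZ Z)]

theorem pr_ide (φ : E →+* ℂ) : pr Z ι φ * ide ι φ = pr Z ι φ := by
  unfold pr
  rw [Matrix.smul_mul, mul_assoc, ide_idem]

theorem ide_pr (φ : E →+* ℂ) : ide ι φ * pr Z ι φ = pr Z ι φ := by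
  unfold pr
  rw [Matrix.mul_smul, ← mul_assoc, mul_add, mul_one, ← A.comm_D_ide, ← one_add_mul, mul_assoc,
    ide_idem]

theorem pr_idem (φ : E →+* ℂ) : pr Z ι φ * pr Z ι φ = pr Z ι φ := by
  nth_rewrite 1 [pr]
  rw [Matrix.smul_mul, mul_assoc, A.ide_pr, add_mul, one_mul, A.D_pr, ← two_smul ℂ, smul_smul,
    inv_mul_cancel₀ two_ne_zero, one_smul]

theorem iC_pr (e : E) (φ : E →+* ℂ) : iC ι e * pr Z ι φ = φ e • pr Z ι φ := by
  rw [← A.ide_pr, ← mul_assoc, iC_mul_ide, Matrix.smul_mul]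

theorem pr_iC (e : E) (φ : E →+* ℂ) : pr Z ι φ * iC ι e = φ e • pr Z ι φ := by
  rw [← A.pr_ide, mul_assoc, ide_mul_iC, Matrix.mul_smul]

theorem mem_range_pr {x : Fin g ⊕ Fin g → ℂ} {φ : E →+* ℂ} :
    x ∈ LinearMap.range (mulVecLin (pr Z ι φ)) ↔
      DZ Z *ᵥ x = x ∧ ∀ e, iC ι e *ᵥ x = φ e • x := by
  constructor
  · rintro ⟨y, rfl⟩
    refine ⟨?_, fun e => ?_⟩
    · rw [mulVecLin_apply, mulVec_mulVec, A.D_pr]
    · rw [mulVecLin_apply, mulVec_mulVec, A.iC_pr, smul_mulVec]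
  · rintro ⟨h1, h2⟩
    refine ⟨x, ?_⟩
    rw [mulVecLin_apply, pr, smul_mulVec, ← mulVec_mulVec, ide_mulVec_of_eig h2, add_mulVec,
      one_mulVec, h1, ← two_smul ℂ, smul_smul, inv_mul_cancel₀ two_ne_zero, one_smul]

/-- The multiplicity as the dimension of an eigenspace in the homology. -/
theorem mult_eq_finrank (φ : E →+* ℂ) :
    mult Z ι φ = finrank ℂ (LinearMap.range (mulVecLin (pr Z ι φ))) := by
  set f := (mulVecLin (PZ Z)).domRestrict (LinearMap.range (mulVecLin (pr Z ι φ))) with hf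
  have hinj : Function.Injective f := by
    rw [← LinearMap.ker_eq_bot, LinearMap.ker_eq_bot']
    rintro ⟨x, hx⟩ h
    apply Subtype.ext
    exact eq_zero_of_PZ A.isUnit (A.mem_range_pr.1 hx).1 h
  have hrange : LinearMap.range f = eig Z ι φ := by
    ext t
    constructor
    · rintro ⟨⟨x, hx⟩, rfl⟩ e M hM
      change M *ᵥ (PZ Z *ᵥ x) = φ e • (PZ Z *ᵥ x)
      have h1 := endo_PZ hM
      rw [mulVec_mulVec, ← h1, ← mulVec_mulVec]
      change PZ Z *ᵥ (iC ι e *ᵥ x) = _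
      rw [(A.mem_range_pr.1 hx).2, mulVec_smul]
    · intro ht
      obtain ⟨x, hx⟩ : ∃ x, x = (2 : ℂ)⁻¹ • ((1 + DZ Z) *ᵥ (r10 g *ᵥ t)) := ⟨_, rfl⟩
      have h1 : DZ Z *ᵥ x = x := by
        rw [hx, mulVec_smul, mulVec_mulVec, mul_add, mul_one, DZ_sq A.isUnit, add_comm (DZ Z)]
      have h2 : PZ Z *ᵥ x = t := by
        rw [hx, mulVec_smul, mulVec_mulVec, Matrix.mul_add, Matrix.mul_one, PZ_DZ A.isUnit,
          mulVec_mulVec, Matrix.add_mul, PZ_r10, add_mulVec, one_mulVec, ← two_smul ℂ, smul_smul,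
          inv_mul_cancel₀ two_ne_zero, one_smul]
      have h3 : ∀ e, iC ι e *ᵥ x = φ e • x := by
        intro e
        rw [← sub_eq_zero]
        have hE : IsEndo Z (ι e) (PZ Z * cq (ι e) * r10 g) := endo_of_comm A.isUnit (A.comm e)
        refine eq_zero_of_PZ A.isUnit ?_ ?_
        · rw [mulVec_sub, mulVec_mulVec, ← A.comm, ← mulVec_mulVec, mulVec_smul, h1]
        · have h4 := endo_PZ hE
          change PZ Z * iC ι e = _ at h4
          rw [mulVec_sub, mulVec_mulVec, h4, ← mulVec_mulVec, h2, mulVec_smul, h2, ht e _ hE,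
            sub_self]
      exact ⟨⟨x, A.mem_range_pr.2 ⟨h1, h3⟩⟩, h2⟩
  unfold mult
  rw [← hrange, LinearMap.finrank_range_of_inj hinj]

theorem trace_pr (φ : E →+* ℂ) : trace (pr Z ι φ) = (mult Z ι φ : ℂ) := by
  rw [trace_idem (A.pr_idem φ), A.mult_eq_finrank]

theorem conj_pr (φ : E →+* ℂ) : (pr Z ι (bar φ)).map (starRingEnd ℂ) =
    (2 : ℂ)⁻¹ • ((1 - DZ Z) * ide ι φ) := by
  have h1 : (ide ι (bar φ)).map (starRingEnd ℂ) = ide ι φ := by
    rw [ide_map]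
    change ide ι (bar (bar φ)) = _
    rw [bar_bar]
  have h2 : (1 + DZ Z).map (starRingEnd ℂ) = 1 - DZ Z := by
    have h3 : (1 + DZ Z).map (starRingEnd ℂ) = (1 : Matrix _ _ ℂ).map (starRingEnd ℂ) +
        (DZ Z).map (starRingEnd ℂ) := Matrix.map_add _ (map_add _) _ _
    rw [h3, DZ_conj, Matrix.map_one _ (map_zero _) (map_one _), sub_eq_add_neg]
  unfold pr
  have h3 : ((2 : ℂ)⁻¹ • ((1 + DZ Z) * ide ι (bar φ))).map (starRingEnd ℂ) =
      (2 : ℂ)⁻¹ • ((1 + DZ Z) * ide ι (bar φ)).map (starRingEnd ℂ) := by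
    ext i j
    simp only [Matrix.map_apply, Matrix.smul_apply, smul_eq_mul, map_mul, map_inv₀]
    rw [Complex.conj_ofNat]
  rw [h3, map_conj_mul, h2, h1]

/-- The dimension of the eigenspace is the sum of the two multiplicities. -/
theorem trace_ide_eq (φ : E →+* ℂ) :
    trace (ide ι φ) = ((mult Z ι φ + mult Z ι (bar φ) : ℕ) : ℂ) := by
  have h1 : ide ι φ = pr Z ι φ + (pr Z ι (bar φ)).map (starRingEnd ℂ) := by
    rw [A.conj_pr, pr, ← smul_add, ← add_mul]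
    have h2 : (1 + DZ Z + (1 - DZ Z)) = (2 : ℂ) • 1 := by
      rw [two_smul]
      abel
    rw [h2, Matrix.smul_mul, one_mul, smul_smul, inv_mul_cancel₀ two_ne_zero, one_smul]
  have h2 : trace ((pr Z ι (bar φ)).map (starRingEnd ℂ)) =
      starRingEnd ℂ (trace (pr Z ι (bar φ))) :=
    (AddMonoidHom.map_trace (starRingEnd ℂ).toAddMonoidHom _).symm
  rw [h1, trace_add, h2, A.trace_pr, A.trace_pr, Complex.conj_natCast, Nat.cast_add]

theorem pr_eq_zero {φ : E →+* ℂ} (h : mult Z ι φ = 0) : pr Z ι φ = 0 := by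
  rw [A.mult_eq_finrank, Submodule.finrank_eq_zero, LinearMap.range_eq_bot] at h
  apply Matrix.toLin'.injective
  rw [map_zero]
  exact h

theorem D_ide_neg {φ : E →+* ℂ} (h : mult Z ι φ = 0) : DZ Z * ide ι φ = -ide ι φ := by
  have h1 := A.pr_eq_zero h
  unfold pr at h1
  have h2 := (smul_eq_zero.1 h1).resolve_left (inv_ne_zero two_ne_zero)
  rw [add_mul, one_mul] at h2
  exact eq_neg_of_add_eq_zero_right h2

theorem D_ide_pos {φ : E →+* ℂ} (h : mult Z ι (bar φ) = 0) : DZ Z * ide ι φ = ide ι φ := by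
  have h1 := A.conj_pr φ
  rw [A.pr_eq_zero h, Matrix.map_zero _ (map_zero _)] at h1
  have h2 := (smul_eq_zero.1 h1.symm).resolve_left (inv_ne_zero two_ne_zero)
  rw [sub_mul, one_mul] at h2
  exact (sub_eq_zero.1 h2).symm

end Act

end Pool.Agent.Y4
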