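import Mathlib

/-!
# A system of linear equations with integral coefficients
-/

namespace Pool.Agent.Y4

open Matrix

/-- If `p` divides `r` and does not divide `s` then `s + r A` is invertible. -/
theorem det_ne_zero_of_prime {X : Type*} [Fintype X] [DecidableEq X] {r s : ℕ} {p : ℕ}
    (hp : p.Prime) (hpr : p ∣ r) (hps : ¬ p ∣ s) (A : Matrix X X ℤ) :
    ((s : ℤ) • (1 : Matrix X X ℤ) + (r : ℤ) • A).det ≠ 0 := by
  have : Fact p.Prime := ⟨hp⟩
  intro h
  have h1 := congrArg (Int.castRingHom (ZMod p)) h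
  rw [RingHom.map_det, map_zero] at h1
  have h2 : (Int.castRingHom (ZMod p)).mapMatrix ((s : ℤ) • (1 : Matrix X X ℤ) + (r : ℤ) • A) =
      (s : ZMod p) • (1 : Matrix X X (ZMod p)) := by
    ext i j
    have h3 : ((r : ℤ) : ZMod p) = 0 := by
      rw [Int.cast_natCast, ZMod.natCast_eq_zero_iff]
      exact hpr
    simp only [RingHom.mapMatrix_apply, Matrix.map_apply, Matrix.add_apply, Matrix.smul_apply,
      smul_eq_mul, map_add, map_mul, eq_intCast, h3, zero_mul, add_zero, Matrix.one_apply,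
      Int.cast_natCast]
    split_ifs <;> simp
  rw [h2, det_smul, det_one, mul_one] at h1
  have h4 : ((s : ℕ) : ZMod p) = 0 := eq_zero_of_pow_eq_zero h1
  rw [ZMod.natCast_eq_zero_iff] at h4
  exact hps h4

/-- If `r` does not divide `s` then the system `s x + r A x = 0` has only the trivial solution. -/
theorem eq_zero_of_system {X : Type*} [Fintype X] [DecidableEq X] {r s : ℕ} (hr : ¬ r ∣ s)
    (A : X → X → ℤ) (lam : X → ℂ)
    (h : ∀ i, (r : ℂ) * ∑ j, (A i j : ℂ) * lam j + (s : ℂ) * lam i = 0) : lam = 0 := by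
  obtain ⟨d, hd⟩ : ∃ d, d = Nat.gcd r s := ⟨_, rfl⟩
  have hd0 : 0 < d := by
    rcases Nat.eq_zero_or_pos d with h0 | h0
    · rw [h0] at hd
      have h1 := Nat.eq_zero_of_gcd_eq_zero_right hd.symm
      exact absurd (h1 ▸ dvd_zero r) hr
    · exact h0
  obtain ⟨r', hr'⟩ : d ∣ r := by rw [hd]; exact Nat.gcd_dvd_left r s
  obtain ⟨s', hs'⟩ : d ∣ s := by rw [hd]; exact Nat.gcd_dvd_right r s
  have hcop : Nat.Coprime r' s' := by
    have h1 : Nat.gcd (d * r') (d * s') = d := by rw [← hr', ← hs', ← hd]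
    rw [Nat.gcd_mul_left] at h1
    exact Nat.eq_of_mul_eq_mul_left hd0 (by rw [h1, mul_one])
  have hr1 : r' ≠ 1 := by
    intro h1
    apply hr
    rw [hr', h1, mul_one, hs']
    exact dvd_mul_right _ _
  obtain ⟨p, hp, hpr⟩ := Nat.exists_prime_and_dvd hr1
  have hps : ¬ p ∣ s' := fun hps => hp.not_dvd_one (by
    rw [← hcop.gcd_eq_one]
    exact Nat.dvd_gcd hpr hps)
  have hdet := det_ne_zero_of_prime hp hpr hps (Matrix.of A)
  obtain ⟨M, hM⟩ : ∃ M, M = (s' : ℤ) • (1 : Matrix X X ℤ) + (r' : ℤ) • Matrix.of A := ⟨_, rfl⟩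
  rw [← hM] at hdet
  have h1 : M.map (Int.cast : ℤ → ℂ) *ᵥ lam = 0 := by
    funext i
    have h1 := h i
    have h2 : (d : ℂ) ≠ 0 := by exact_mod_cast hd0.ne'
    have h3 : (d : ℂ) * ((r' : ℂ) * ∑ j, (A i j : ℂ) * lam j + (s' : ℂ) * lam i) = 0 := by
      rw [← h1, hr', hs']
      push_cast
      ring
    have h4 := (mul_eq_zero.1 h3).resolve_left h2
    rw [Pi.zero_apply, ← h4, mulVec, dotProduct]
    have h5 : ∀ j, M.map (Int.cast : ℤ → ℂ) i j * lam j =
        (r' : ℂ) * ((A i j : ℂ) * lam j) + (if i = j then (s' : ℂ) * lam j else 0) := by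
      intro j
      simp only [hM, Matrix.map_apply, Matrix.add_apply, Matrix.smul_apply, smul_eq_mul,
        Matrix.one_apply, Matrix.of_apply]
      split_ifs <;> push_cast <;> ring
    rw [Finset.sum_congr rfl fun j _ => h5 j, Finset.sum_add_distrib, ← Finset.mul_sum]
    simp
  have h3 : (M.map (Int.cast : ℤ → ℂ)).det ≠ 0 := by
    have h4 : (M.map (Int.cast : ℤ → ℂ)).det = ((M.det : ℤ) : ℂ) := by
      have := RingHom.map_det (Int.castRingHom ℂ) M
      rw [eq_intCast] at this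
      rw [this]
      rfl
    rw [h4]
    exact_mod_cast hdet
  exact Matrix.eq_zero_of_mulVec_eq_zero h3 h1

end Pool.Agent.Y4
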