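import Mathlib
import Pool.Agent.Y4.Sig
import Pool.Agent.Y4.Sys

/-!
# One indefinite place
-/

set_option linter.unusedSectionVars false

namespace Pool.Agent.Y4

open Matrix Module Pool.Agent.H204R3.CM Pool.Agent.H194R3.CM Pool.Agent.W437.HC
  Pool.Agent.W437.HD Pool.Agent.W437.HQ Pool.Agent.W548.Odd Pool.Agent.TH125

variable {g : ℕ} {Z : Matrix (Fin g) (Fin g) ℂ} {E : Type*} [Field E] [NumberField E]
  {ι : E →+* Matrix (Fin g ⊕ Fin g) (Fin g ⊕ Fin g) ℚ} {φ0 : E →+* ℂ}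

/-- Exactly one place is indefinite, and the multiplicities there are different. -/
structure One (Z : Matrix (Fin g) (Fin g) ℂ)
    (ι : E →+* Matrix (Fin g ⊕ Fin g) (Fin g ⊕ Fin g) ℚ) (φ0 : E →+* ℂ) : Prop
    extends Act Z ι where
  df : ∀ φ, φ ≠ φ0 → φ ≠ bar φ0 → mult Z ι φ = 0 ∨ mult Z ι (bar φ) = 0
  pos0 : 0 < mult Z ι φ0
  lt : mult Z ι φ0 < mult Z ι (bar φ0)

/-- The signs. -/
noncomputable def wt (Z : Matrix (Fin g) (Fin g) ℂ)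
    (ι : E →+* Matrix (Fin g ⊕ Fin g) (Fin g ⊕ Fin g) ℚ) (φ0 φ : E →+* ℂ) : ℤ :=
  if φ = φ0 then -1 else if φ = bar φ0 then 1 else if mult Z ι φ = 0 then -1 else 1

/-- The difference of the two projectors. -/
noncomputable def NN0 (Z : Matrix (Fin g) (Fin g) ℂ)
    (ι : E →+* Matrix (Fin g ⊕ Fin g) (Fin g ⊕ Fin g) ℚ) (φ0 : E →+* ℂ) :
    Matrix (Fin g ⊕ Fin g) (Fin g ⊕ Fin g) ℂ :=
  pr Z ι φ0 - (pr Z ι φ0).map (starRingEnd ℂ)

/-- An automorphism of the complex numbers acts on the embeddings. -/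
def embEquiv (σ : ℂ ≃+* ℂ) : (E →+* ℂ) ≃ (E →+* ℂ) where
  toFun φ := (σ : ℂ →+* ℂ).comp φ
  invFun φ := (σ.symm : ℂ →+* ℂ).comp φ
  left_inv φ := by
    ext e
    simp
  right_inv φ := by
    ext e
    simp

namespace Act

variable (A : Act Z ι)
include A

theorem two_prb (φ : E →+* ℂ) : (2 : ℂ) • (pr Z ι φ).map (starRingEnd ℂ) =
    (1 - DZ Z) * ide ι (bar φ) := by
  have h1 := A.conj_pr (bar φ)
  rw [bar_bar] at h1
  rw [h1, smul_smul, mul_inv_cancel₀ two_ne_zero, one_smul]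

theorem two_pr (φ : E →+* ℂ) : (2 : ℂ) • pr Z ι φ = (1 + DZ Z) * ide ι φ := by
  rw [pr, smul_smul, mul_inv_cancel₀ two_ne_zero, one_smul]

theorem pr_Om [Nonempty (Fin g)] (φ : E →+* ℂ) :
    (pr Z ι φ)ᵀ * Om g ℂ = Om g ℂ * (pr Z ι φ).map (starRingEnd ℂ) := by
  have h1 : (2 : ℂ) • ((pr Z ι φ)ᵀ * Om g ℂ) =
      (2 : ℂ) • (Om g ℂ * (pr Z ι φ).map (starRingEnd ℂ)) := by
    rw [← Matrix.smul_mul, ← transpose_smul, A.two_pr, ← Matrix.mul_smul, A.two_prb,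
      transpose_mul, transpose_add, transpose_one, mul_assoc, add_mul, DZ_Om A.symm, one_mul]
    have h2 : Om g ℂ + -(Om g ℂ * DZ Z) = Om g ℂ * (1 - DZ Z) := by
      rw [mul_sub, mul_one, sub_eq_add_neg]
    have h3 : (1 - DZ Z) * ide ι (bar φ) = ide ι (bar φ) * (1 - DZ Z) := by
      rw [sub_mul, mul_sub, one_mul, mul_one, A.comm_D_ide]
    rw [h2, ← mul_assoc, A.ide_Om, mul_assoc, h3]
  have h2 := congrArg (fun Y => (2 : ℂ)⁻¹ • Y) h1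
  simp only [smul_smul, inv_mul_cancel₀ (two_ne_zero (α := ℂ)), one_smul] at h2
  exact h2

theorem prb_Om [Nonempty (Fin g)] (φ : E →+* ℂ) :
    ((pr Z ι φ).map (starRingEnd ℂ))ᵀ * Om g ℂ = Om g ℂ * pr Z ι φ := by
  have h1 := congrArg (fun Y : Matrix _ _ ℂ => Y.map (starRingEnd ℂ)) (A.pr_Om φ)
  simp only [map_conj_mul, Om_aut] at h1
  have h2 : ((pr Z ι φ).map (starRingEnd ℂ)).map (starRingEnd ℂ) = pr Z ι φ := by
    ext i j
    simp
  rw [h2] at h1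
  exact h1

end Act

namespace One

variable (O : One Z ι φ0)
include O

theorem ne_bar : φ0 ≠ bar φ0 := by
  intro h
  have h1 := O.lt
  rw [← h] at h1
  exact lt_irrefl _ h1

theorem nonempty : Nonempty (Fin g) := by
  by_contra h
  rw [not_nonempty_iff] at h
  have h1 := O.pos0
  have h2 : mult Z ι φ0 = 0 := by
    unfold mult
    rw [Submodule.finrank_eq_zero, Submodule.eq_bot_iff]
    intro t _
    funext i
    exact h.elim i
  omega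

theorem not_both (φ : E →+* ℂ) : mult Z ι φ ≠ 0 ∨ mult Z ι (bar φ) ≠ 0 := by
  by_contra h
  push Not at h
  have h1 := O.trace_ide_eq φ
  rw [h.1, h.2, trace_ide φ φ0, O.trace_ide_eq φ0, Nat.cast_inj] at h1
  have := O.pos0
  omega

theorem wt_bar (φ : E →+* ℂ) : wt Z ι φ0 (bar φ) = -wt Z ι φ0 φ := by
  have hne := O.ne_bar
  unfold wt
  by_cases h1 : φ = φ0
  · subst h1
    rw [if_neg hne.symm, if_pos rfl, if_pos rfl, neg_neg]
  by_cases h2 : φ = bar φ0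
  · subst h2
    rw [if_pos (bar_bar φ0), if_neg h1, if_pos rfl]
  have h3 : bar φ ≠ φ0 := fun h => h2 (by rw [← h, bar_bar])
  have h4 : bar φ ≠ bar φ0 := fun h => h1 (by rw [← bar_bar φ, h, bar_bar])
  rw [if_neg h3, if_neg h4, if_neg h1, if_neg h2]
  rcases O.df φ h1 h2 with h5 | h5
  · have h6 := (O.not_both φ).resolve_left (not_not.2 h5)
    rw [if_pos h5, if_neg h6, neg_neg]
  · have h6 := (O.not_both φ).resolve_right (not_not.2 h5)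
    rw [if_pos h5, if_neg h6]

theorem D_ide_of_ne {φ : E →+* ℂ} (h1 : φ ≠ φ0) (h2 : φ ≠ bar φ0) :
    DZ Z * ide ι φ = (wt Z ι φ0 φ : ℂ) • ide ι φ := by
  unfold wt
  rw [if_neg h1, if_neg h2]
  by_cases h3 : mult Z ι φ = 0
  · rw [if_pos h3, O.D_ide_neg h3]
    simp
  · rw [if_neg h3, O.D_ide_pos ((O.df φ h1 h2).resolve_left h3)]
    simp

theorem D_ide_zero : DZ Z * ide ι φ0 = (wt Z ι φ0 φ0 : ℂ) • ide ι φ0 + (2 : ℂ) • pr Z ι φ0 := by
  rw [O.two_pr]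
  unfold wt
  rw [if_pos rfl, add_mul, one_mul]
  push_cast
  rw [neg_smul, one_smul]
  abel

theorem D_ide_bar : DZ Z * ide ι (bar φ0) = (wt Z ι φ0 (bar φ0) : ℂ) • ide ι (bar φ0) -
    (2 : ℂ) • (pr Z ι φ0).map (starRingEnd ℂ) := by
  rw [O.two_prb, sub_mul, one_mul]
  unfold wt
  rw [if_neg O.ne_bar.symm, if_pos rfl]
  push_cast
  rw [one_smul]
  abel

/-- The decomposition of the Hodge operator. -/
theorem D_eq : DZ Z = ∑ φ, (wt Z ι φ0 φ : ℂ) • ide ι φ + (2 : ℂ) • NN0 Z ι φ0 := by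
  have hne := O.ne_bar
  have h1 : DZ Z = ∑ φ, DZ Z * ide ι φ := by
    rw [← Finset.mul_sum, sum_ide, mul_one]
  have h2 : ∀ φ : E →+* ℂ, DZ Z * ide ι φ = (wt Z ι φ0 φ : ℂ) • ide ι φ +
      ((if φ = φ0 then (2 : ℂ) • pr Z ι φ0 else 0) -
        (if φ = bar φ0 then (2 : ℂ) • (pr Z ι φ0).map (starRingEnd ℂ) else 0)) := by
    intro φ
    by_cases h1 : φ = φ0
    · rw [if_pos h1, h1, if_neg hne, sub_zero, O.D_ide_zero]
    by_cases h2 : φ = bar φ0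
    · rw [if_neg h1, if_pos h2, zero_sub, h2, ← sub_eq_add_neg, O.D_ide_bar]
    rw [if_neg h1, if_neg h2, sub_zero, add_zero, O.D_ide_of_ne h1 h2]
  rw [Finset.sum_congr rfl fun φ _ => h2 φ, Finset.sum_add_distrib, Finset.sum_sub_distrib,
    Finset.sum_ite_eq' , Finset.sum_ite_eq', if_pos (Finset.mem_univ _),
    if_pos (Finset.mem_univ _), ← smul_sub] at h1
  exact h1

theorem NN0_sp : (NN0 Z ι φ0)ᵀ * Om g ℂ + Om g ℂ * NN0 Z ι φ0 = 0 := by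
  have := O.nonempty
  unfold NN0
  rw [transpose_sub, sub_mul, O.pr_Om, O.prb_Om, mul_sub]
  abel

theorem NN0_iC (e : E) : NN0 Z ι φ0 * iC ι e = iC ι e * NN0 Z ι φ0 := by
  have h1 : pr Z ι φ0 * iC ι e = iC ι e * pr Z ι φ0 := by rw [O.pr_iC, O.iC_pr]
  have h2 := congrArg (fun Y : Matrix _ _ ℂ => Y.map (starRingEnd ℂ)) h1
  simp only [map_conj_mul, iC_map] at h2
  unfold NN0
  rw [sub_mul, mul_sub, h1, h2]

/-- The element normalizes the Lie algebra. -/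
theorem NN0_norm {X : Matrix (Fin g ⊕ Fin g) (Fin g ⊕ Fin g) ℂ} (hX : X ∈ LA (DZ '' {Z})) :
    NN0 Z ι φ0 * X - X * NN0 Z ι φ0 ∈ LA (DZ '' {Z}) := by
  have hD : DZ Z ∈ LA (DZ '' {Z}) := LA_self ⟨Z, rfl, rfl⟩
  have hX2 : X ∈ lieM (DZ Z) ℂ := by
    refine LA_le_lieM ?_ hX
    rintro _ ⟨Z', hZ', rfl⟩
    rw [Set.mem_singleton_iff.1 hZ']
    exact D_mem _
  have h1 : (∑ φ, (wt Z ι φ0 φ : ℂ) • ide ι φ) * X =
      X * ∑ φ, (wt Z ι φ0 φ : ℂ) • ide ι φ := by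
    rw [Finset.sum_mul, Finset.mul_sum]
    refine Finset.sum_congr rfl fun φ _ => ?_
    rw [Matrix.smul_mul, Matrix.mul_smul, O.comm_L_ide hX2]
  have h2 : DZ Z * X - X * DZ Z = (2 : ℂ) • (NN0 Z ι φ0 * X - X * NN0 Z ι φ0) := by
    rw [O.D_eq, add_mul, mul_add, h1, Matrix.smul_mul, Matrix.mul_smul, smul_sub]
    abel
  have h3 : NN0 Z ι φ0 * X - X * NN0 Z ι φ0 = (2 : ℂ)⁻¹ • (DZ Z * X - X * DZ Z) := by
    rw [h2, smul_smul, inv_mul_cancel₀ two_ne_zero, one_smul]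
  rw [h3]
  exact Submodule.smul_mem _ _ (LA_br hD hX)

/-- The linear system for the components of a central element. -/
theorem lam_zero {lam : (E →+* ℂ) → ℂ} (hodd : ∀ φ, lam (bar φ) = -lam φ)
    (h : ∀ σ : ℂ ≃+* ℂ, ((mult Z ι φ0 + mult Z ι (bar φ0) : ℕ) : ℂ) *
      ∑ φ, (wt Z ι φ0 φ : ℂ) * lam ((σ : ℂ →+* ℂ).comp φ) +
      4 * (mult Z ι φ0 : ℂ) * lam ((σ : ℂ →+* ℂ).comp φ0) = 0) : lam = 0 := by
  have := O.nonempty
  have h1 : ∀ ψ : E →+* ℂ, ∃ σ : ℂ ≃+* ℂ, (σ : ℂ →+* ℂ).comp φ0 = ψ := fun ψ =>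
    exists_aut_emb φ0 ψ
  choose s hs using h1
  have hr : ¬ (mult Z ι φ0 + mult Z ι (bar φ0)) ∣ 2 * mult Z ι φ0 := by
    intro hd
    have h2 := Nat.le_of_dvd (by have := O.pos0; omega) hd
    have h3 := O.lt
    omega
  refine eq_zero_of_system hr (fun ψ ψ' => if wt Z ι φ0 ((embEquiv (s ψ)).symm ψ') = -1 then -1
    else 0) lam fun ψ => ?_
  have h2 := h (s ψ)
  rw [hs] at h2
  -- the sum over all embeddings is twice the sum over half of them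
  have hw : ∀ φ, wt Z ι φ0 φ = -1 ∨ wt Z ι φ0 φ = 1 := by
    intro φ
    unfold wt
    split_ifs <;> simp
  have h3 : ∑ φ, (wt Z ι φ0 φ : ℂ) * lam (((s ψ : ℂ ≃+* ℂ) : ℂ →+* ℂ).comp φ) =
      2 * ∑ φ, (if wt Z ι φ0 φ = -1 then -lam (((s ψ : ℂ ≃+* ℂ) : ℂ →+* ℂ).comp φ) else 0) := by
    have h4 : ∀ φ, (wt Z ι φ0 φ : ℂ) * lam (((s ψ : ℂ ≃+* ℂ) : ℂ →+* ℂ).comp φ) =
        (if wt Z ι φ0 φ = -1 then -lam (((s ψ : ℂ ≃+* ℂ) : ℂ →+* ℂ).comp φ) else 0) +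
        (if wt Z ι φ0 (bar φ) = -1 then
          -lam (((s ψ : ℂ ≃+* ℂ) : ℂ →+* ℂ).comp (bar φ)) else 0) := by
      intro φ
      rw [O.wt_bar, O.bar_comp, hodd]
      rcases hw φ with h5 | h5 <;> rw [h5] <;> norm_num
    rw [Finset.sum_congr rfl fun φ _ => h4 φ, Finset.sum_add_distrib, two_mul]
    congr 1
    let b : (E →+* ℂ) ≃ (E →+* ℂ) := ⟨bar, bar, bar_bar, bar_bar⟩
    exact Fintype.sum_equiv b _ _ fun φ => rfl
  have h4 : ∑ φ, (if wt Z ι φ0 φ = -1 then -lam (((s ψ : ℂ ≃+* ℂ) : ℂ →+* ℂ).comp φ) else 0) =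
      ∑ ψ', (((if wt Z ι φ0 ((embEquiv (s ψ)).symm ψ') = -1 then -1 else 0 : ℤ)) : ℂ) *
        lam ψ' := by
    refine Fintype.sum_equiv (embEquiv (s ψ)) _ _ fun φ => ?_
    rw [Equiv.symm_apply_apply]
    change _ = _ * lam (((s ψ : ℂ ≃+* ℂ) : ℂ →+* ℂ).comp φ)
    split_ifs <;> simp
  rw [h3, h4] at h2
  push_cast at h2 ⊢
  linear_combination (2 : ℂ)⁻¹ * h2

/-- The traces of a combination of the idempotents. -/
theorem trace_comb {lam : (E →+* ℂ) → ℂ} {c : Matrix (Fin g ⊕ Fin g) (Fin g ⊕ Fin g) ℂ}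
    (hc : c = ∑ φ, lam φ • ide ι φ) {P : Matrix (Fin g ⊕ Fin g) (Fin g ⊕ Fin g) ℂ}
    {ψ : E →+* ℂ} (hP : ide ι ψ * P = P) : trace (c * P) = lam ψ * trace P := by
  have h1 : c * P = lam ψ • P := by
    rw [hc, Finset.sum_mul, Finset.sum_eq_single ψ]
    · rw [Matrix.smul_mul, hP]
    · intro φ _ hne
      rw [Matrix.smul_mul, ← hP, ← mul_assoc, ide_mul_ne ι hne, zero_mul, smul_zero]
    · intro h
      exact absurd (Finset.mem_univ _) h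
  rw [h1, trace_smul, smul_eq_mul]

theorem D_map (σ : ℂ ≃+* ℂ) : (DZ Z).map (σ : ℂ →+* ℂ) =
    ∑ φ, (wt Z ι φ0 φ : ℂ) • ide ι ((σ : ℂ →+* ℂ).comp φ) +
      (2 : ℂ) • ((pr Z ι φ0).map (σ : ℂ →+* ℂ) -
        ((pr Z ι φ0).map (starRingEnd ℂ)).map (σ : ℂ →+* ℂ)) := by
  have h1 := congrArg (fun Y : Matrix _ _ ℂ => (σ : ℂ →+* ℂ).mapMatrix Y) O.D_eq
  simp only [map_add, map_sum] at h1
  have h2 : ∀ (c : ℂ) (Y : Matrix (Fin g ⊕ Fin g) (Fin g ⊕ Fin g) ℂ),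
      (σ : ℂ →+* ℂ).mapMatrix (c • Y) = σ c • (σ : ℂ →+* ℂ).mapMatrix Y := by
    intro c Y
    ext i j
    simp
  simp only [h2, map_intCast, map_ofNat] at h1
  have h3 : ∀ φ, (σ : ℂ →+* ℂ).mapMatrix (ide ι φ) = ide ι ((σ : ℂ →+* ℂ).comp φ) := fun φ =>
    ide_map ι φ _
  simp only [h3, NN0, map_sub] at h1
  exact h1

/-- A central element which is orthogonal to the Lie algebra is zero. -/
theorem c_zero {lam : (E →+* ℂ) → ℂ} {c : Matrix (Fin g ⊕ Fin g) (Fin g ⊕ Fin g) ℂ}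
    (hc : c = ∑ φ, lam φ • ide ι φ) (hsp : cᵀ * Om g ℂ + Om g ℂ * c = 0)
    (htr : ∀ σ : ℂ ≃+* ℂ, trace (c * (DZ Z).map (σ : ℂ →+* ℂ)) = 0) : c = 0 := by
  have := O.nonempty
  have hce : ∀ ψ, c * ide ι ψ = lam ψ • ide ι ψ := by
    intro ψ
    rw [hc, Finset.sum_mul, Finset.sum_eq_single ψ]
    · rw [Matrix.smul_mul, ide_idem]
    · intro φ _ hne
      rw [Matrix.smul_mul, ide_mul_ne ι hne, smul_zero]
    · intro h
      exact absurd (Finset.mem_univ _) h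
  have hec : ∀ ψ, ide ι ψ * c = lam ψ • ide ι ψ := by
    intro ψ
    rw [hc, Finset.mul_sum, Finset.sum_eq_single ψ]
    · rw [Matrix.mul_smul, ide_idem]
    · intro φ _ hne
      rw [Matrix.mul_smul, ide_mul_ne ι hne.symm, smul_zero]
    · intro h
      exact absurd (Finset.mem_univ _) h
  have hodd : ∀ φ, lam (bar φ) = -lam φ := by
    intro φ
    have h1 : cᵀ * Om g ℂ * ide ι (bar φ) = lam φ • (Om g ℂ * ide ι (bar φ)) := by
      rw [mul_assoc, ← O.ide_Om, ← mul_assoc, ← transpose_mul, hec, transpose_smul,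
        Matrix.smul_mul, O.ide_Om]
    have h2 : cᵀ * Om g ℂ * ide ι (bar φ) = -(lam (bar φ) • (Om g ℂ * ide ι (bar φ))) := by
      rw [eq_neg_of_add_eq_zero_left hsp, neg_mul, mul_assoc, hce, Matrix.mul_smul]
    rw [h1] at h2
    have h3 : (lam φ + lam (bar φ)) • (Om g ℂ * ide ι (bar φ)) = 0 := by
      rw [add_smul, h2, neg_add_cancel]
    rcases smul_eq_zero.1 h3 with h4 | h4
    · linear_combination h4
    · exfalso
      apply ide_ne_zero (ι := ι) (bar φ)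
      have h5 : Om g ℂ * (Om g ℂ * ide ι (bar φ)) = 0 := by rw [h4, mul_zero]
      rw [← mul_assoc, Om_sq, neg_one_mul, neg_eq_zero] at h5
      exact h5
  have hlam : lam = 0 := by
    refine O.lam_zero hodd fun σ => ?_
    have h1 := htr σ
    rw [O.D_map σ, mul_add, Finset.mul_sum, trace_add, trace_sum, Matrix.mul_smul, trace_smul,
      mul_sub, trace_sub] at h1
    have h2 : ∀ φ : E →+* ℂ, trace (c * ((wt Z ι φ0 φ : ℂ) •
        ide ι ((σ : ℂ →+* ℂ).comp φ))) =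
        ((mult Z ι φ0 + mult Z ι (bar φ0) : ℕ) : ℂ) *
          ((wt Z ι φ0 φ : ℂ) * lam ((σ : ℂ →+* ℂ).comp φ)) := by
      intro φ
      rw [Matrix.mul_smul, trace_smul, O.trace_comb hc (ide_idem ι _), trace_ide _ φ0,
        O.trace_ide_eq, smul_eq_mul]
      ring
    have h3 : trace (c * (pr Z ι φ0).map (σ : ℂ →+* ℂ)) =
        lam ((σ : ℂ →+* ℂ).comp φ0) * (mult Z ι φ0 : ℂ) := by
      have h4 : ide ι ((σ : ℂ →+* ℂ).comp φ0) * (pr Z ι φ0).map (σ : ℂ →+* ℂ) =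
          (pr Z ι φ0).map (σ : ℂ →+* ℂ) := by
        rw [← ide_map, ← Matrix.map_mul, O.ide_pr]
      have h5 : trace ((pr Z ι φ0).map (σ : ℂ →+* ℂ)) = σ (trace (pr Z ι φ0)) :=
        (AddMonoidHom.map_trace (σ : ℂ →+* ℂ).toAddMonoidHom _).symm
      rw [O.trace_comb hc h4, h5, O.trace_pr, map_natCast]
    have h4 : trace (c * ((pr Z ι φ0).map (starRingEnd ℂ)).map (σ : ℂ →+* ℂ)) =
        -(lam ((σ : ℂ →+* ℂ).comp φ0) * (mult Z ι φ0 : ℂ)) := by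
      have h4 : ide ι ((σ : ℂ →+* ℂ).comp (bar φ0)) *
          ((pr Z ι φ0).map (starRingEnd ℂ)).map (σ : ℂ →+* ℂ) =
          ((pr Z ι φ0).map (starRingEnd ℂ)).map (σ : ℂ →+* ℂ) := by
        have h6 : ide ι (bar φ0) = (ide ι φ0).map (starRingEnd ℂ) := (ide_map ι φ0 _).symm
        rw [← ide_map, ← Matrix.map_mul, h6, ← map_conj_mul, O.ide_pr]
      have h5 : trace (((pr Z ι φ0).map (starRingEnd ℂ)).map (σ : ℂ →+* ℂ)) =
          σ (starRingEnd ℂ (trace (pr Z ι φ0))) := by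
        have h6 : trace ((pr Z ι φ0).map (starRingEnd ℂ)) = starRingEnd ℂ (trace (pr Z ι φ0)) :=
          (AddMonoidHom.map_trace (starRingEnd ℂ).toAddMonoidHom _).symm
        rw [← h6]
        exact (AddMonoidHom.map_trace (σ : ℂ →+* ℂ).toAddMonoidHom _).symm
      rw [O.trace_comb hc h4, h5, O.trace_pr, Complex.conj_natCast, map_natCast, O.bar_comp, hodd]
      ring
    rw [Finset.sum_congr rfl fun φ _ => h2 φ, ← Finset.mul_sum, h3, h4, smul_eq_mul] at h1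
    linear_combination h1
  rw [hc, hlam]
  simp

/-- The Lie algebra contains the element if all matrices which commute with the Lie algebra and
with the field are combinations of the idempotents. -/
theorem NN0_mem (hspan : ∀ c : Matrix (Fin g ⊕ Fin g) (Fin g ⊕ Fin g) ℂ,
    InCm (DZ '' {Z}) c → (∀ e, c * iC ι e = iC ι e * c) →
      cᵀ * Om g ℂ + Om g ℂ * c = 0 →
      (∀ σ : ℂ ≃+* ℂ, trace (c * (DZ Z).map (σ : ℂ →+* ℂ)) = 0) →
      ∃ lam : (E →+* ℂ) → ℂ, c = ∑ φ, lam φ • ide ι φ) :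
    NN0 Z ι φ0 ∈ LA (DZ '' {Z}) := by
  have hW : IsPer {Z} := by
    intro Z' hZ'
    rw [Set.mem_singleton_iff.1 hZ']
    exact ⟨O.symm, O.pos⟩
  obtain ⟨S, Si, H⟩ := hermZ hW (Set.mem_singleton Z)
  have hD : DZ Z ∈ LA (DZ '' {Z}) := LA_self ⟨Z, rfl, rfl⟩
  obtain ⟨N1, hN1, horth⟩ := exists_proj H (NN0 Z ι φ0)
  obtain ⟨c, hc⟩ : ∃ c, c = NN0 Z ι φ0 - N1 := ⟨_, rfl⟩
  rw [← hc] at horth
  have hcm : InCm (DZ '' {Z}) c := by
    refine comm_of_orth H horth fun X hX => ?_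
    have h1 := Submodule.sub_mem _ (O.NN0_norm hX) (LA_br hN1 hX)
    have h2 : c * X - X * c = NN0 Z ι φ0 * X - X * NN0 Z ι φ0 - (N1 * X - X * N1) := by
      rw [hc]
      noncomm_ring
    rw [h2]
    exact h1
  have hle : ∀ X ∈ LA (DZ '' {Z}), X ∈ lieM (DZ Z) ℂ := by
    intro X hX
    refine LA_le_lieM ?_ hX
    rintro _ ⟨Z', hZ', rfl⟩
    rw [Set.mem_singleton_iff.1 hZ']
    exact D_mem _
  have hciC : ∀ e, c * iC ι e = iC ι e * c := by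
    intro e
    rw [hc, sub_mul, mul_sub, O.NN0_iC, O.comm_L_iC (hle _ hN1)]
  have hsp : cᵀ * Om g ℂ + Om g ℂ * c = 0 := by
    have h1 := O.NN0_sp
    have h2 := sp_LA hW hN1
    rw [hc, transpose_sub, sub_mul, mul_sub]
    have h3 : (NN0 Z ι φ0)ᵀ * Om g ℂ - N1ᵀ * Om g ℂ +
        (Om g ℂ * NN0 Z ι φ0 - Om g ℂ * N1) = ((NN0 Z ι φ0)ᵀ * Om g ℂ + Om g ℂ * NN0 Z ι φ0) -
        (N1ᵀ * Om g ℂ + Om g ℂ * N1) := by abel
    rw [h3, h1, h2, sub_zero]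
  have htr : ∀ σ : ℂ ≃+* ℂ, trace (c * (DZ Z).map (σ : ℂ →+* ℂ)) = 0 := fun σ =>
    horth _ (LA_aut (σ : ℂ →+* ℂ) hD)
  obtain ⟨lam, hlam⟩ := hspan c hcm hciC hsp htr
  have h0 := O.c_zero hlam hsp htr
  rw [hc, sub_eq_zero] at h0
  rw [h0]
  exact hN1

end One

end Pool.Agent.Y4
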