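import Mathlib
import Pool.Agent.Y4.Core

/-!
# Multiplicity one
-/

set_option linter.unusedSectionVars false

namespace Pool.Agent.Y4

open Matrix Module Pool.Agent.H204R3.CM Pool.Agent.H194R3.CM Pool.Agent.W437.HC
  Pool.Agent.W437.HD Pool.Agent.W437.HQ Pool.Agent.W548.Odd Pool.Agent.TH125

variable {g : ℕ} {Z : Matrix (Fin g) (Fin g) ℂ} {E : Type*} [Field E] [NumberField E]
  {ι : E →+* Matrix (Fin g ⊕ Fin g) (Fin g ⊕ Fin g) ℚ} {φ0 : E →+* ℂ}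

/-- The complex conjugate of a vector. -/
noncomputable def cjv (v : Fin g ⊕ Fin g → ℂ) : Fin g ⊕ Fin g → ℂ := fun i => starRingEnd ℂ (v i)

theorem cjv_vecMulVec (v l : Fin g ⊕ Fin g → ℂ) :
    (vecMulVec v l).map (starRingEnd ℂ) = vecMulVec (cjv v) (cjv l) := by
  ext i j
  simp [vecMulVec_apply, cjv]

namespace One

variable (O : One Z ι φ0)
include O

/-- The projector is a product of two vectors. -/
theorem exists_vl (h1 : mult Z ι φ0 = 1) : ∃ v l : Fin g ⊕ Fin g → ℂ,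
    pr Z ι φ0 = vecMulVec v l ∧ l ⬝ᵥ v = 1 := by
  have h2 := O.mult_eq_finrank φ0
  rw [h1] at h2
  obtain ⟨⟨v, hv⟩, hv0, hspan⟩ := finrank_eq_one_iff'.1 h2.symm
  have h3 : ∀ j, ∃ c : ℂ, c • v = pr Z ι φ0 *ᵥ Pi.single j 1 := by
    intro j
    obtain ⟨c, hc⟩ := hspan ⟨pr Z ι φ0 *ᵥ Pi.single j 1, ⟨_, rfl⟩⟩
    exact ⟨c, congrArg Subtype.val hc⟩
  choose l hl using h3
  have h4 : pr Z ι φ0 = vecMulVec v l := by
    ext i j
    have h5 := congrFun (hl j) i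
    rw [mulVec_single_one] at h5
    rw [vecMulVec_apply, mul_comm]
    exact h5.symm
  refine ⟨v, l, h4, ?_⟩
  have h5 := O.trace_pr φ0
  rw [h1, h4, trace_vecMulVec, Nat.cast_one] at h5
  rw [dotProduct_comm]
  exact h5

/-- The second vector is determined by the first. -/
theorem l_eq {v l : Fin g ⊕ Fin g → ℂ} (h : pr Z ι φ0 = vecMulVec v l) (h1 : l ⬝ᵥ v = 1) :
    ww (Om g ℂ) v (cjv v) ≠ 0 ∧ l = (ww (Om g ℂ) v (cjv v))⁻¹ • (Om g ℂ *ᵥ cjv v) := by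
  have := O.nonempty
  have h2 := O.pr_Om φ0
  rw [h, cjv_vecMulVec, transpose_vecMulVec, vecMulVec_mul, mul_vecMulVec] at h2
  have h3 : cjv l ⬝ᵥ cjv v = 1 := by
    have h4 := congrArg (starRingEnd ℂ) h1
    simp only [dotProduct, map_sum, map_mul, map_one] at h4
    exact h4
  have h4 : ww (Om g ℂ) v (cjv v) • l = Om g ℂ *ᵥ cjv v := by
    have h5 := congrArg (fun Y => Y *ᵥ cjv v) h2
    simp only [vecMulVec_mulVec] at h5
    rw [h3] at h5
    have h6 : v ᵥ* Om g ℂ ⬝ᵥ cjv v = ww (Om g ℂ) v (cjv v) := by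
      rw [ww, dotProduct_mulVec]
    rw [h6] at h5
    simpa using h5
  have hv : v ≠ 0 := by
    rintro rfl
    rw [dotProduct_zero] at h1
    exact zero_ne_one h1
  have h5 : ww (Om g ℂ) v (cjv v) ≠ 0 := by
    intro h0
    rw [h0, zero_smul] at h4
    have h6 : Om g ℂ *ᵥ (Om g ℂ *ᵥ cjv v) = 0 := by rw [← h4, mulVec_zero]
    rw [mulVec_mulVec, Om_sq, neg_mulVec, one_mulVec, neg_eq_zero] at h6
    apply hv
    funext i
    have h7 := congrFun h6 i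
    unfold cjv at h7
    exact (map_eq_zero _).1 h7
  refine ⟨h5, ?_⟩
  rw [← h4, smul_smul, inv_mul_cancel₀ h5, one_smul]

/-- The element is a symmetric product of two vectors. -/
theorem NN0_eq {v l : Fin g ⊕ Fin g → ℂ} (h : pr Z ι φ0 = vecMulVec v l) (h1 : l ⬝ᵥ v = 1) :
    NN0 Z ι φ0 = (-(ww (Om g ℂ) v (cjv v))⁻¹) • SS (Om g ℂ) v (cjv v) := by
  obtain ⟨h2, h3⟩ := O.l_eq h h1
  obtain ⟨k, hk⟩ : ∃ k, k = (ww (Om g ℂ) v (cjv v))⁻¹ := ⟨_, rfl⟩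
  rw [← hk] at h3 ⊢
  have h4 : starRingEnd ℂ k = -k := by
    have h5 : starRingEnd ℂ (ww (Om g ℂ) v (cjv v)) = -ww (Om g ℂ) v (cjv v) := by
      rw [ww_map (σ := starRingEnd ℂ) (Om_aut _)]
      have h6 : (fun i => starRingEnd ℂ (cjv v i)) = v := by
        funext i
        simp [cjv]
      rw [h6]
      change ww (Om g ℂ) (cjv v) v = _
      rw [ww_anti (Om_transpose ℂ)]
    rw [hk, map_inv₀, h5, inv_neg]
  have h5 : pr Z ι φ0 = (-k) • (vecMulVec v (cjv v) * Om g ℂ) := by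
    rw [h, h3, vecMulVec_mul]
    have h6 : cjv v ᵥ* Om g ℂ = -(Om g ℂ *ᵥ cjv v) := by
      rw [← mulVec_transpose, Om_transpose, neg_mulVec]
    rw [h6, vecMulVec_neg, vecMulVec_smul]
    simp
  have h6 : (pr Z ι φ0).map (starRingEnd ℂ) = k • (vecMulVec (cjv v) v * Om g ℂ) := by
    rw [h5]
    have h7 : ∀ Y : Matrix (Fin g ⊕ Fin g) (Fin g ⊕ Fin g) ℂ,
        ((-k) • Y).map (starRingEnd ℂ) = k • Y.map (starRingEnd ℂ) := by
      intro Y
      ext i j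
      simp [h4]
    rw [h7, map_conj_mul, Om_aut, cjv_vecMulVec]
    congr 3
    funext i
    simp [cjv]
  unfold NN0 SS
  rw [h6, h5, add_mul, smul_add, neg_smul, neg_smul]
  abel

/-- The Hodge conjecture for all powers. -/
theorem divisorial_of_mem (h1 : mult Z ι φ0 = 1) (hs : IsSimpleAV Z)
    (h : NN0 Z ι φ0 ∈ LA (DZ '' {Z})) {n m : ℕ}
    (f : (Fin n → Fin g ⊕ Fin g → ℚ) [⋀^Fin m × Fin 2]→ₗ[ℚ] ℚ)
    (hf : IsHodge (perPow Z n) f) : f ∈ divisorial (perPow Z n) m := by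
  obtain ⟨v, l, hvl, hlv⟩ := O.exists_vl h1
  obtain ⟨h2, -⟩ := O.l_eq hvl hlv
  have h3 := O.NN0_eq hvl hlv
  have h4 : SS (Om g ℂ) v (cjv v) ∈ lieM (DZ Z) ℂ := by
    have h5 : NN0 Z ι φ0 ∈ lieM (DZ Z) ℂ := by
      refine LA_le_lieM ?_ h
      rintro _ ⟨Z', hZ', rfl⟩
      rw [Set.mem_singleton_iff.1 hZ']
      exact D_mem _
    have h6 : SS (Om g ℂ) v (cjv v) = (-ww (Om g ℂ) v (cjv v)) • NN0 Z ι φ0 := by
      rw [h3, smul_smul, neg_mul_neg, mul_inv_cancel₀ h2, one_smul]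
    rw [h6]
    exact Submodule.smul_mem _ _ h5
  exact divisorial_of_SS O.symm O.pos hs h4 h2 f hf

end One

end Pool.Agent.Y4
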