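import Mathlib
import Pool.Agent.Y4.RankOne

/-!
# Multiplicities which are invariant under the stabilizer of the indefinite place
-/

set_option linter.unusedSectionVars false

namespace Pool.Agent.Y4

open Matrix Module Pool.Agent.H204R3.CM Pool.Agent.H194R3.CM Pool.Agent.W437.HC
  Pool.Agent.W437.HD Pool.Agent.W437.HQ Pool.Agent.W548.Odd Pool.Agent.TH125

variable {g : ℕ} {Z : Matrix (Fin g) (Fin g) ℂ} {E : Type*} [Field E] [NumberField E]
  {ι : E →+* Matrix (Fin g ⊕ Fin g) (Fin g ⊕ Fin g) ℚ} {φ0 : E →+* ℂ}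

/-- A vector after an automorphism. -/
def av (σ : ℂ ≃+* ℂ) (v : Fin g ⊕ Fin g → ℂ) : Fin g ⊕ Fin g → ℂ := fun i => σ (v i)

theorem vecMulVec_aut (σ : ℂ ≃+* ℂ) (v l : Fin g ⊕ Fin g → ℂ) :
    (vecMulVec v l).map (σ : ℂ →+* ℂ) = vecMulVec (av σ v) (av σ l) := by
  ext i j
  simp [vecMulVec_apply, av]

/-- Complex conjugation as an automorphism. -/
noncomputable def conjEq : ℂ ≃+* ℂ := starRingAut

theorem conjEq_apply (z : ℂ) : conjEq z = starRingEnd ℂ z := rfl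

namespace One

variable (O : One Z ι φ0)
include O

theorem wt_stab (hst : ∀ σ : ℂ ≃+* ℂ, (σ : ℂ →+* ℂ).comp φ0 = φ0 → ∀ φ : E →+* ℂ,
    mult Z ι ((σ : ℂ →+* ℂ).comp φ) = mult Z ι φ) {σ : ℂ ≃+* ℂ}
    (hσ : (σ : ℂ →+* ℂ).comp φ0 = φ0) (φ : E →+* ℂ) :
    wt Z ι φ0 ((σ : ℂ →+* ℂ).comp φ) = wt Z ι φ0 φ := by
  have := O.nonempty
  have h1 : (σ : ℂ →+* ℂ).comp (bar φ0) = bar φ0 := by rw [O.bar_comp, hσ]
  have hinj : ∀ φ ψ : E →+* ℂ, (σ : ℂ →+* ℂ).comp φ = (σ : ℂ →+* ℂ).comp ψ → φ = ψ := fun φ ψ h =>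
    (embEquiv σ).injective h
  have h2 : (σ : ℂ →+* ℂ).comp φ = φ0 ↔ φ = φ0 :=
    ⟨fun h => hinj _ _ (by rw [h, hσ]), fun h => by rw [h, hσ]⟩
  have h3 : (σ : ℂ →+* ℂ).comp φ = bar φ0 ↔ φ = bar φ0 :=
    ⟨fun h => hinj _ _ (by rw [h, h1]), fun h => by rw [h, h1]⟩
  unfold wt
  simp only [h2, h3, hst σ hσ φ]

/-- The conjugates of the projector. -/
theorem prb_aut (σ : ℂ ≃+* ℂ) : ((pr Z ι φ0).map (starRingEnd ℂ)).map (σ : ℂ →+* ℂ) =
    (pr Z ι φ0).map ((conjEq.trans σ : ℂ ≃+* ℂ) : ℂ →+* ℂ) := by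
  ext i j
  simp [conjEq_apply]

theorem pr_aut_Om (σ : ℂ ≃+* ℂ) : ((pr Z ι φ0).map (σ : ℂ →+* ℂ))ᵀ * Om g ℂ =
    Om g ℂ * (pr Z ι φ0).map ((conjEq.trans σ : ℂ ≃+* ℂ) : ℂ →+* ℂ) := by
  have := O.nonempty
  have h1 := congrArg (fun Y : Matrix _ _ ℂ => Y.map (σ : ℂ →+* ℂ)) (O.pr_Om φ0)
  simp only [Matrix.map_mul, Om_aut] at h1
  rw [O.prb_aut] at h1
  exact h1

variable {c : Matrix (Fin g ⊕ Fin g) (Fin g ⊕ Fin g) ℂ}

theorem trace_conj_pr (hsp : cᵀ * Om g ℂ + Om g ℂ * c = 0) (σ : ℂ ≃+* ℂ) :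
    trace (c * (pr Z ι φ0).map ((conjEq.trans σ : ℂ ≃+* ℂ) : ℂ →+* ℂ)) =
      -trace (c * (pr Z ι φ0).map (σ : ℂ →+* ℂ)) := by
  obtain ⟨P, hP⟩ : ∃ P, P = (pr Z ι φ0).map (σ : ℂ →+* ℂ) := ⟨_, rfl⟩
  obtain ⟨Q, hQ⟩ : ∃ Q, Q = (pr Z ι φ0).map ((conjEq.trans σ : ℂ ≃+* ℂ) : ℂ →+* ℂ) := ⟨_, rfl⟩
  have h1 := O.pr_aut_Om σ
  rw [← hP, ← hQ] at h1
  rw [← hP, ← hQ]
  have h2 : Q = -(Om g ℂ * Pᵀ * Om g ℂ) := by
    rw [mul_assoc, h1, ← mul_assoc, Om_sq, neg_one_mul, neg_neg]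
  have h3 : Om g ℂ * c = -(cᵀ * Om g ℂ) := eq_neg_of_add_eq_zero_right hsp
  have h4 : trace (c * (Om g ℂ * Pᵀ * Om g ℂ)) = trace (c * P) := by
    have h5 : trace (c * (Om g ℂ * Pᵀ * Om g ℂ)) = trace (Om g ℂ * c * (Om g ℂ * Pᵀ)) := by
      rw [← mul_assoc c, trace_mul_comm, ← mul_assoc]
    rw [h5, h3, neg_mul, mul_assoc, ← mul_assoc (Om g ℂ), Om_sq, neg_one_mul, mul_neg, neg_neg,
      ← transpose_mul, trace_transpose, trace_mul_comm]
  rw [h2, mul_neg, trace_neg, h4]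

/-- An element of the commutant multiplies the conjugates of the vector with scalars. -/
theorem c_vec (hc : InCm (DZ '' {Z}) c) (hciC : ∀ e, c * iC ι e = iC ι e * c)
    {v l : Fin g ⊕ Fin g → ℂ} (h : pr Z ι φ0 = vecMulVec v l) (h1 : l ⬝ᵥ v = 1) (σ : ℂ ≃+* ℂ) :
    c *ᵥ av σ v = trace (c * (pr Z ι φ0).map (σ : ℂ →+* ℂ)) • av σ v := by
  obtain ⟨P, hP⟩ : ∃ P, P = (pr Z ι φ0).map (σ : ℂ →+* ℂ) := ⟨_, rfl⟩
  have hD : DZ Z ∈ LA (DZ '' {Z}) := LA_self ⟨Z, rfl, rfl⟩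
  have hPc : c * P = P * c := by
    have h2 : P = (2 : ℂ)⁻¹ • ((1 + (DZ Z).map (σ : ℂ →+* ℂ)) *
        ide ι ((σ : ℂ →+* ℂ).comp φ0)) := by
      rw [hP, pr, ← ide_map]
      have h3 : ∀ Y : Matrix (Fin g ⊕ Fin g) (Fin g ⊕ Fin g) ℂ,
          ((2 : ℂ)⁻¹ • Y).map (σ : ℂ →+* ℂ) = (2 : ℂ)⁻¹ • Y.map (σ : ℂ →+* ℂ) := by
        intro Y
        ext i j
        simp only [Matrix.map_apply, Matrix.smul_apply, smul_eq_mul, map_mul, map_inv₀, map_ofNat]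
      have h4 : (1 + DZ Z).map (σ : ℂ →+* ℂ) = 1 + (DZ Z).map (σ : ℂ →+* ℂ) := by
        have h5 : (1 + DZ Z).map (σ : ℂ →+* ℂ) = (1 : Matrix _ _ ℂ).map (σ : ℂ →+* ℂ) +
            (DZ Z).map (σ : ℂ →+* ℂ) := Matrix.map_add _ (map_add _) _ _
        rw [h5, Matrix.map_one _ (map_zero _) (map_one _)]
      rw [h3, Matrix.map_mul, h4]
    have h3 := hc _ (LA_aut (σ : ℂ →+* ℂ) hD)
    have h4 := comm_ide ι hciC ((σ : ℂ →+* ℂ).comp φ0)
    rw [h2, Matrix.mul_smul, Matrix.smul_mul]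
    congr 1
    rw [← mul_assoc, mul_add, mul_one, h3, mul_assoc _ _ c, ← h4]
    noncomm_ring
  rw [← hP]
  have hP2 : P = vecMulVec (av σ v) (av σ l) := by rw [hP, h, vecMulVec_aut]
  have h2 : av σ l ⬝ᵥ av σ v = 1 := by
    have h3 := congrArg σ h1
    simp only [dotProduct, map_sum, map_mul, map_one] at h3
    exact h3
  have h3 : P *ᵥ av σ v = av σ v := by
    rw [hP2, vecMulVec_mulVec, h2]
    simp
  have h4 : c *ᵥ av σ v = (av σ l ⬝ᵥ (c *ᵥ av σ v)) • av σ v := by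
    have h5 : c *ᵥ av σ v = P *ᵥ (c *ᵥ av σ v) := by
      rw [mulVec_mulVec, ← hPc, ← mulVec_mulVec, h3]
    rw [hP2, vecMulVec_mulVec] at h5
    simpa using h5
  have h5 : trace (c * P) = av σ l ⬝ᵥ (c *ᵥ av σ v) := by
    rw [hP2, mul_vecMulVec, trace_vecMulVec, dotProduct_comm]
  rw [h5]
  exact h4

/-- The relation between the traces. -/
theorem trace_rel (hsp : cᵀ * Om g ℂ + Om g ℂ * c = 0)
    (htr : ∀ σ : ℂ ≃+* ℂ, trace (c * (DZ Z).map (σ : ℂ →+* ℂ)) = 0) (σ : ℂ ≃+* ℂ) :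
    ∑ φ, (wt Z ι φ0 φ : ℂ) * trace (c * ide ι ((σ : ℂ →+* ℂ).comp φ)) +
      4 * trace (c * (pr Z ι φ0).map (σ : ℂ →+* ℂ)) = 0 := by
  have h1 := htr σ
  rw [O.D_map σ, mul_add, Finset.mul_sum, trace_add, trace_sum, Matrix.mul_smul, trace_smul,
    mul_sub, trace_sub, O.prb_aut, O.trace_conj_pr hsp, smul_eq_mul] at h1
  simp only [Matrix.mul_smul, trace_smul, smul_eq_mul] at h1
  linear_combination h1

/-- The commutant consists of combinations of the idempotents if the multiplicities are invariant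
under the stabilizer of the indefinite place. -/
theorem span_of_stab (hs : IsSimpleAV Z) (h1 : mult Z ι φ0 = 1)
    (hst : ∀ σ : ℂ ≃+* ℂ, (σ : ℂ →+* ℂ).comp φ0 = φ0 → ∀ φ : E →+* ℂ,
      mult Z ι ((σ : ℂ →+* ℂ).comp φ) = mult Z ι φ)
    (hc : InCm (DZ '' {Z}) c) (hciC : ∀ e, c * iC ι e = iC ι e * c)
    (hsp : cᵀ * Om g ℂ + Om g ℂ * c = 0)
    (htr : ∀ σ : ℂ ≃+* ℂ, trace (c * (DZ Z).map (σ : ℂ →+* ℂ)) = 0) :
    ∃ lam : (E →+* ℂ) → ℂ, c = ∑ φ, lam φ • ide ι φ := by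
  have := O.nonempty
  obtain ⟨v, l, hvl, hlv⟩ := O.exists_vl h1
  have hv : v ≠ 0 := by
    rintro rfl
    rw [dotProduct_zero] at hlv
    exact zero_ne_one hlv
  -- the scalars depend only on the embedding
  have hdep : ∀ σ τ : ℂ ≃+* ℂ, (σ : ℂ →+* ℂ).comp φ0 = (τ : ℂ →+* ℂ).comp φ0 →
      trace (c * (pr Z ι φ0).map (σ : ℂ →+* ℂ)) = trace (c * (pr Z ι φ0).map (τ : ℂ →+* ℂ)) := by
    intro σ τ hστ
    have e1 := O.trace_rel hsp htr σ
    have e2 := O.trace_rel hsp htr τ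
    obtain ⟨ρ, hρ⟩ : ∃ ρ : ℂ ≃+* ℂ, ρ = τ.trans σ.symm := ⟨_, rfl⟩
    have hρ0 : (ρ : ℂ →+* ℂ).comp φ0 = φ0 := by
      ext e
      have h2 := RingHom.congr_fun hστ e
      simp only [RingHom.comp_apply] at h2
      rw [hρ]
      change σ.symm (τ (φ0 e)) = φ0 e
      have h3 : τ (φ0 e) = σ (φ0 e) := h2.symm
      rw [h3, RingEquiv.symm_apply_apply]
    have e3 : ∑ φ, (wt Z ι φ0 φ : ℂ) * trace (c * ide ι ((τ : ℂ →+* ℂ).comp φ)) =
        ∑ φ, (wt Z ι φ0 φ : ℂ) * trace (c * ide ι ((σ : ℂ →+* ℂ).comp φ)) := by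
      refine Fintype.sum_equiv (embEquiv ρ) _ _ fun φ => ?_
      have h2 : (embEquiv ρ) φ = (ρ : ℂ →+* ℂ).comp φ := rfl
      have h3 : (σ : ℂ →+* ℂ).comp ((ρ : ℂ →+* ℂ).comp φ) = (τ : ℂ →+* ℂ).comp φ := by
        ext e
        simp [hρ]
      rw [h2, h3, O.wt_stab hst hρ0]
    rw [e3] at e2
    linear_combination (4 : ℂ)⁻¹ * (e1 - e2)
  have hex : ∀ ψ : E →+* ℂ, ∃ σ : ℂ ≃+* ℂ, (σ : ℂ →+* ℂ).comp φ0 = ψ := fun ψ =>
    exists_aut_emb φ0 ψ
  choose s hs' using hex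
  refine ⟨fun ψ => trace (c * (pr Z ι φ0).map ((s ψ : ℂ ≃+* ℂ) : ℂ →+* ℂ)), ?_⟩
  obtain ⟨d, hd⟩ : ∃ d, d = ∑ ψ, trace (c * (pr Z ι φ0).map ((s ψ : ℂ ≃+* ℂ) : ℂ →+* ℂ)) •
    ide ι ψ := ⟨_, rfl⟩
  rw [← hd]
  -- the idempotents on the conjugates of the vector
  have hev : ∀ (σ : ℂ ≃+* ℂ) (ψ : E →+* ℂ), ide ι ψ *ᵥ av σ v =
      if ψ = (σ : ℂ →+* ℂ).comp φ0 then av σ v else 0 := by
    intro σ ψ
    have h2 : ide ι ((σ : ℂ →+* ℂ).comp φ0) *ᵥ av σ v = av σ v := by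
      have h3 : pr Z ι φ0 *ᵥ v = v := by
        rw [hvl, vecMulVec_mulVec, hlv]
        simp
      have h4 : ide ι φ0 *ᵥ v = v := by
        rw [← h3, mulVec_mulVec, O.ide_pr]
      rw [← ide_map]
      funext i
      have h5 := congrArg σ (congrFun h4 i)
      simp only [mulVec, dotProduct, map_sum, map_mul] at h5
      simp only [mulVec, dotProduct, Matrix.map_apply, av, RingHom.coe_coe]
      exact h5
    split_ifs with h3
    · rw [h3, h2]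
    · rw [← h2, mulVec_mulVec, ide_mul_ne ι h3, zero_mulVec]
  have hdv : ∀ σ : ℂ ≃+* ℂ, d *ᵥ av σ v = c *ᵥ av σ v := by
    intro σ
    rw [O.c_vec hc hciC hvl hlv σ, hd, sum_mulVec,
      Finset.sum_eq_single ((σ : ℂ →+* ℂ).comp φ0)]
    · rw [smul_mulVec, hev, if_pos rfl, hdep _ σ (hs' _)]
    · intro ψ _ hne
      rw [smul_mulVec, hev, if_neg hne, smul_zero]
    · intro h
      exact absurd (Finset.mem_univ _) h
  -- the span of the conjugates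
  let U : Submodule ℂ (Fin g ⊕ Fin g → ℂ) :=
    Submodule.span ℂ (Set.range fun σ : ℂ ≃+* ℂ => av σ v)
  have hUv : ∀ σ : ℂ ≃+* ℂ, av σ v ∈ U := fun σ => Submodule.subset_span ⟨σ, rfl⟩
  have hU : U = ⊤ := by
    refine stable_eq_top O.isUnit hs U ?_ ?_ ?_
    · intro σ x hx
      induction hx using Submodule.span_induction with
      | mem w hw =>
        obtain ⟨τ, rfl⟩ := hw
        exact hUv (τ.trans σ)
      | zero =>
        have h3 : (fun i => σ ((0 : Fin g ⊕ Fin g → ℂ) i)) = 0 := by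
          funext i
          simp
        rw [h3]
        exact Submodule.zero_mem _
      | add x y _ _ hx hy =>
        have h3 : (fun i => σ ((x + y) i)) = (fun i => σ (x i)) + fun i => σ (y i) := by
          funext i
          simp
        rw [h3]
        exact Submodule.add_mem _ hx hy
      | smul a x _ hx =>
        have h3 : (fun i => σ ((a • x) i)) = σ a • fun i => σ (x i) := by
          funext i
          simp
        rw [h3]
        exact Submodule.smul_mem _ _ hx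
    · intro x hx
      induction hx using Submodule.span_induction with
      | mem w hw =>
        obtain ⟨σ, rfl⟩ := hw
        change DZ Z *ᵥ av σ v ∈ U
        rw [O.D_eq, O.NN0_eq hvl hlv, add_mulVec, sum_mulVec, smul_mulVec, smul_mulVec, SS_vec]
        refine Submodule.add_mem _ (Submodule.sum_mem _ fun ψ _ => ?_) ?_
        · rw [smul_mulVec, hev]
          refine Submodule.smul_mem _ _ ?_
          split_ifs
          · exact hUv σ
          · exact Submodule.zero_mem _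
        · refine Submodule.smul_mem _ _ (Submodule.smul_mem _ _ (Submodule.add_mem _ ?_ ?_))
          · exact Submodule.smul_mem _ _ (hUv (RingEquiv.refl ℂ))
          · exact Submodule.smul_mem _ _ (hUv conjEq)
      | zero =>
        rw [mulVec_zero]
        exact Submodule.zero_mem _
      | add x y _ _ hx hy =>
        rw [mulVec_add]
        exact Submodule.add_mem _ hx hy
      | smul a x _ hx =>
        rw [mulVec_smul]
        exact Submodule.smul_mem _ _ hx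
    · intro h0
      have h2 := hUv (RingEquiv.refl ℂ)
      rw [h0, Submodule.mem_bot] at h2
      exact hv h2
  have hcd : ∀ x, d *ᵥ x = c *ᵥ x := by
    intro x
    have hx : x ∈ U := by rw [hU]; trivial
    induction hx using Submodule.span_induction with
    | mem w hw =>
      obtain ⟨σ, rfl⟩ := hw
      exact hdv σ
    | zero => rw [mulVec_zero, mulVec_zero]
    | add x y _ _ hx hy => rw [mulVec_add, mulVec_add, hx, hy]
    | smul a x _ hx => rw [mulVec_smul, mulVec_smul, hx]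
  ext i j
  have h2 := congrFun (hcd (Pi.single j 1)) i
  rw [mulVec_single_one, mulVec_single_one] at h2
  exact h2.symm

end One

end Pool.Agent.Y4
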