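import Mathlib
import Pool.Agent.Y4.Stab

/-!
# Fields which are their own centralizer
-/

set_option linter.unusedSectionVars false

namespace Pool.Agent.Y4

open Matrix Module Pool.Agent.H204R3.CM Pool.Agent.H194R3.CM Pool.Agent.W437.HC
  Pool.Agent.W437.HD Pool.Agent.W437.HQ Pool.Agent.W548.Odd Pool.Agent.TH125

variable {g : ℕ} {Z : Matrix (Fin g) (Fin g) ℂ} {E : Type*} [Field E] [NumberField E]
  {ι : E →+* Matrix (Fin g ⊕ Fin g) (Fin g ⊕ Fin g) ℚ} {φ0 : E →+* ℂ}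

/-- The action of an element is a combination of the idempotents. -/
theorem iC_eq_sum (e : E) : iC ι e = ∑ φ, φ e • ide ι φ := by
  rw [← mul_one (iC ι e), ← sum_ide ι, Finset.mul_sum]
  exact Finset.sum_congr rfl fun φ _ => iC_mul_ide ι e φ

/-- The commutant of the Lie algebra and of the field. -/
def Cme (Z : Matrix (Fin g) (Fin g) ℂ)
    (ι : E →+* Matrix (Fin g ⊕ Fin g) (Fin g ⊕ Fin g) ℚ) :
    Submodule ℂ (Matrix (Fin g ⊕ Fin g) (Fin g ⊕ Fin g) ℂ) where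
  carrier := {c | InCm (DZ '' {Z}) c ∧ ∀ e, c * iC ι e = iC ι e * c}
  zero_mem' := ⟨fun X _ => by rw [zero_mul, mul_zero], fun e => by rw [zero_mul, mul_zero]⟩
  add_mem' := fun {a b} ha hb => ⟨fun X hX => by rw [add_mul, mul_add, ha.1 X hX, hb.1 X hX],
    fun e => by rw [add_mul, mul_add, ha.2 e, hb.2 e]⟩
  smul_mem' := fun r a ha => ⟨fun X hX => by rw [Matrix.smul_mul, Matrix.mul_smul, ha.1 X hX],
    fun e => by rw [Matrix.smul_mul, Matrix.mul_smul, ha.2 e]⟩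

/-- If the field is its own centralizer then the commutant consists of combinations of the
idempotents. -/
theorem span_of_max (hmax : ∀ u : Matrix (Fin g ⊕ Fin g) (Fin g ⊕ Fin g) ℚ,
    qm u * DZ Z = DZ Z * qm u → (∀ e, u * ι e = ι e * u) → ∃ e, u = ι e)
    {c : Matrix (Fin g ⊕ Fin g) (Fin g ⊕ Fin g) ℂ}
    (hc : InCm (DZ '' {Z}) c) (hciC : ∀ e, c * iC ι e = iC ι e * c) :
    ∃ lam : (E →+* ℂ) → ℂ, c = ∑ φ, lam φ • ide ι φ := by
  have hD : DZ Z ∈ LA (DZ '' {Z}) := LA_self ⟨Z, rfl, rfl⟩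
  have key : ∀ X ∈ Cme Z ι, ∃ lam : (E →+* ℂ) → ℂ, X = ∑ φ, lam φ • ide ι φ := by
    refine rational_induction (Cme Z ι) ?_ ?_ ?_ ?_ ?_
    · rintro σ X ⟨h1, h2⟩
      refine ⟨h1.aut σ, fun e => ?_⟩
      have h3 := congrArg (fun Y : Matrix _ _ ℂ => Y.map (σ : ℂ →+* ℂ)) (h2 e)
      simp only [Matrix.map_mul, iC_map] at h3
      exact h3
    · rintro u ⟨h1, h2⟩
      obtain ⟨e, rfl⟩ := hmax u (h1 _ hD) (fun e => by
        have h3 : qm (u * ι e) = qm (ι e * u) := by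
          rw [qm_mul, qm_mul]
          exact h2 e
        exact cq_inj h3)
      exact ⟨fun φ => φ e, iC_eq_sum e⟩
    · exact ⟨0, by simp⟩
    · rintro X Y ⟨a, rfl⟩ ⟨b, rfl⟩
      refine ⟨a + b, ?_⟩
      rw [← Finset.sum_add_distrib]
      exact Finset.sum_congr rfl fun φ _ => by rw [Pi.add_apply, add_smul]
    · rintro r X ⟨a, rfl⟩
      refine ⟨r • a, ?_⟩
      rw [Finset.smul_sum]
      exact Finset.sum_congr rfl fun φ _ => by rw [Pi.smul_apply, smul_smul, smul_eq_mul]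
  exact key c ⟨hc, hciC⟩

/-- The ring of all endomorphisms which commute with the field. -/
def cen (Z : Matrix (Fin g) (Fin g) ℂ)
    (ι : E →+* Matrix (Fin g ⊕ Fin g) (Fin g ⊕ Fin g) ℚ) :
    Subring (Matrix (Fin g ⊕ Fin g) (Fin g ⊕ Fin g) ℚ) where
  carrier := {u | qm u * DZ Z = DZ Z * qm u ∧ ∀ e, u * ι e = ι e * u}
  mul_mem' := fun {a b} ha hb => ⟨by
    rw [qm_mul, mul_assoc, hb.1, ← mul_assoc, ha.1, mul_assoc], fun e => by
    rw [mul_assoc, hb.2, ← mul_assoc, ha.2, mul_assoc]⟩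
  one_mem' := ⟨by
    have h1 : qm (1 : Matrix (Fin g ⊕ Fin g) (Fin g ⊕ Fin g) ℚ) = 1 :=
      Matrix.map_one _ Rat.cast_zero Rat.cast_one
    rw [h1, one_mul, mul_one], fun e => by rw [one_mul, mul_one]⟩
  zero_mem' := ⟨by rw [qm_zero, zero_mul, mul_zero], fun e => by rw [zero_mul, mul_zero]⟩
  add_mem' := fun {a b} ha hb => ⟨by
    have h1 : qm (a + b) = qm a + qm b := by
      ext i j
      simp [qm]
    rw [h1, add_mul, mul_add, ha.1, hb.1], fun e => by rw [add_mul, mul_add, ha.2, hb.2]⟩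
  neg_mem' := fun {a} ha => ⟨by rw [qm_neg, neg_mul, mul_neg, ha.1], fun e => by
    rw [neg_mul, mul_neg, ha.2]⟩

theorem mem_cen {u : Matrix (Fin g ⊕ Fin g) (Fin g ⊕ Fin g) ℚ} :
    u ∈ cen Z ι ↔ qm u * DZ Z = DZ Z * qm u ∧ ∀ e, u * ι e = ι e * u := Iff.rfl

namespace One

variable (O : One Z ι φ0)
include O

/-- Elements of the centralizer commute with the Lie algebra. -/
theorem cen_InCm {u : Matrix (Fin g ⊕ Fin g) (Fin g ⊕ Fin g) ℚ} (hu : u ∈ cen Z ι) :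
    InCm (DZ '' {Z}) (qm u) := by
  intro X hX
  refine comm_lie O.symm hu.1 ?_
  refine LA_le_lieM ?_ hX
  rintro _ ⟨Z', hZ', rfl⟩
  rw [Set.mem_singleton_iff.1 hZ']
  exact D_mem _

theorem cen_unit (hs : IsSimpleAV Z) {u : Matrix (Fin g ⊕ Fin g) (Fin g ⊕ Fin g) ℚ}
    (hu : u ∈ cen Z ι) : u = 0 ∨ IsUnit (qm u) := by
  have hW : IsPer {Z} := by
    intro Z' hZ'
    rw [Set.mem_singleton_iff.1 hZ']
    exact ⟨O.symm, O.pos⟩
  exact hdivZ hW (Set.mem_singleton Z) hs u (O.cen_InCm hu)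

/-- The centralizer acts on the line by a character. -/
theorem cen_vec {v l : Fin g ⊕ Fin g → ℂ} (h : pr Z ι φ0 = vecMulVec v l) (h1 : l ⬝ᵥ v = 1)
    {u : Matrix (Fin g ⊕ Fin g) (Fin g ⊕ Fin g) ℚ} (hu : u ∈ cen Z ι) :
    qm u *ᵥ v = (l ⬝ᵥ (qm u *ᵥ v)) • v := by
  have h2 : qm u * pr Z ι φ0 = pr Z ι φ0 * qm u := by
    have h3 : qm u * ide ι φ0 = ide ι φ0 * qm u := comm_ide ι (fun e => by
      have h4 := congrArg qm (hu.2 e)
      rw [qm_mul, qm_mul] at h4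
      exact h4) φ0
    have h4 : qm u * (1 + DZ Z) = (1 + DZ Z) * qm u := by
      rw [mul_add, add_mul, mul_one, one_mul, hu.1]
    unfold pr
    rw [Matrix.mul_smul, Matrix.smul_mul, ← mul_assoc, h4, mul_assoc, h3, mul_assoc]
  have h3 : pr Z ι φ0 *ᵥ v = v := by
    rw [h, vecMulVec_mulVec, h1]
    simp
  have h4 : qm u *ᵥ v = pr Z ι φ0 *ᵥ (qm u *ᵥ v) := by
    rw [mulVec_mulVec, ← h2, ← mulVec_mulVec, h3]
  rw [h, vecMulVec_mulVec] at h4
  simpa using h4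

/-- The centralizer is commutative. -/
theorem cen_comm (hs : IsSimpleAV Z) (h1 : mult Z ι φ0 = 1)
    {u u' : Matrix (Fin g ⊕ Fin g) (Fin g ⊕ Fin g) ℚ} (hu : u ∈ cen Z ι) (hu' : u' ∈ cen Z ι) :
    u * u' = u' * u := by
  obtain ⟨v, l, hvl, hlv⟩ := O.exists_vl h1
  have hv : v ≠ 0 := by
    rintro rfl
    rw [dotProduct_zero] at hlv
    exact zero_ne_one hlv
  rw [← sub_eq_zero]
  refine (O.cen_unit hs (Subring.sub_mem _ (Subring.mul_mem _ hu hu')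
    (Subring.mul_mem _ hu' hu))).resolve_right fun h2 => ?_
  obtain ⟨a, ha⟩ : ∃ a : ℂ, a = l ⬝ᵥ (qm u *ᵥ v) := ⟨_, rfl⟩
  obtain ⟨b, hb⟩ : ∃ b : ℂ, b = l ⬝ᵥ (qm u' *ᵥ v) := ⟨_, rfl⟩
  have h3 := O.cen_vec hvl hlv hu
  have h4 := O.cen_vec hvl hlv hu'
  rw [← ha] at h3
  rw [← hb] at h4
  have h5 : qm (u * u' - u' * u) *ᵥ v = 0 := by
    rw [qm_sub, qm_mul, qm_mul, sub_mulVec, ← mulVec_mulVec, ← mulVec_mulVec, h4, h3,
      mulVec_smul, mulVec_smul, h3, h4, smul_comm, sub_self]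
  apply hv
  exact (Matrix.mulVec_injective_iff_isUnit.2 h2) (by rw [h5, mulVec_zero])

end One

end Pool.Agent.Y4
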